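import Mathlib

/-! Logarithmic averages: a bounded version. -/

set_option autoImplicit false

open Filter Topology Finset

namespace Pool.Agent.H705R3.BSD

lemma harm_up (k n : ℕ) (hk : 1 ≤ k) (hkn : k ≤ n) :
    ∑ j ∈ Icc k n, (1 : ℝ) / j ≤ 1 / k + (Real.log n - Real.log k) := by
  induction n, hkn using Nat.le_induction with
  | base => simp
  | succ n hn ih =>
    rw [Finset.sum_Icc_succ_top (by omega)]
    have hn0 : (0 : ℝ) < n := by exact_mod_cast (by omega : 0 < n)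
    have h1 : (1 : ℝ) / ((n + 1 : ℕ) : ℝ) ≤ Real.log ((n + 1 : ℕ) : ℝ) - Real.log n := by
      have h2 := Real.one_sub_inv_le_log_of_pos (x := ((n : ℝ) + 1) / n) (by positivity)
      rw [Real.log_div (by positivity) (by positivity)] at h2
      have e : 1 - (((n : ℝ) + 1) / n)⁻¹ = 1 / ((n : ℝ) + 1) := by
        field_simp
        ring
      rw [e] at h2
      push_cast
      exact h2
    linarith

lemma harm_low (k n : ℕ) (hk : 1 ≤ k) (hkn : k ≤ n) :
    Real.log n - Real.log k ≤ ∑ j ∈ Icc k n, (1 : ℝ) / j := by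
  have hmain : Real.log ((n + 1 : ℕ) : ℝ) - Real.log k ≤ ∑ j ∈ Icc k n, (1 : ℝ) / j := by
    induction n, hkn using Nat.le_induction with
    | base =>
      have hk0 : (0 : ℝ) < k := by exact_mod_cast hk
      have h2 := Real.log_le_sub_one_of_pos (x := ((k : ℝ) + 1) / k) (by positivity)
      rw [Real.log_div (by positivity) (by positivity)] at h2
      have e : ((k : ℝ) + 1) / k - 1 = 1 / k := by field_simp; ring
      rw [e] at h2
      simp only [Icc_self, sum_singleton]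
      push_cast
      exact h2
    | succ n hn ih =>
      rw [Finset.sum_Icc_succ_top (by omega)]
      have h2 := Real.log_le_sub_one_of_pos (x := ((n : ℝ) + 1 + 1) / (n + 1)) (by positivity)
      rw [Real.log_div (by positivity) (by positivity)] at h2
      have e : ((n : ℝ) + 1 + 1) / (n + 1) - 1 = 1 / ((n : ℝ) + 1) := by field_simp; ring
      rw [e] at h2
      push_cast at ih ⊢
      linarith
  have hn0 : (0 : ℝ) < n := by exact_mod_cast (by omega : 0 < n)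
  have h3 : Real.log n ≤ Real.log ((n + 1 : ℕ) : ℝ) :=
    Real.log_le_log hn0 (by push_cast; linarith)
  linarith

lemma sum_swap (a : ℕ → ℝ) (n : ℕ) :
    ∑ j ∈ Icc 1 n, (∑ k ∈ Icc 1 j, a k) / j = ∑ k ∈ Icc 1 n, a k * ∑ j ∈ Icc k n, (1 : ℝ) / j := by
  have e1 : ∀ j ∈ Icc 1 n, (∑ k ∈ Icc 1 j, a k) / (j : ℝ) = ∑ k ∈ Icc 1 j, a k * (1 / (j : ℝ)) := by
    intro j _
    rw [Finset.sum_div]
    exact Finset.sum_congr rfl fun k _ => by ring
  rw [Finset.sum_congr rfl e1]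
  rw [Finset.sum_comm' (t' := Icc 1 n) (s' := fun k => Icc k n)]
  · refine Finset.sum_congr rfl fun k _ => ?_
    rw [Finset.mul_sum]
  · intro j k
    simp only [Finset.mem_Icc]
    omega

theorem avg_bdd (a : ℕ → ℝ) (K B U0 : ℝ)
    (ha : ∀ n : ℕ, 1 ≤ n → |a n| ≤ K * (n : ℝ) ^ (-(1 / 2) : ℝ))
    (hS : ∀ U : ℝ, U0 ≤ U → |∑ k ∈ Icc 1 ⌊Real.exp U⌋₊, a k * (1 - Real.log k / U)| ≤ B) :
    ∃ B' : ℝ, ∀ᶠ n : ℕ in atTop,
      |(∑ j ∈ Icc 2 n, (∑ k ∈ Icc 1 j, a k) / j) / Real.log n| ≤ B' := by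
  have hK : 0 ≤ K := by
    have := (abs_nonneg _).trans (ha 1 le_rfl)
    simpa using this
  have hsum : Summable (fun n : ℕ => K * (n : ℝ) ^ (-(3 / 2) : ℝ)) :=
    (Real.summable_nat_rpow.2 (by norm_num)).mul_left K
  set S3 := ∑' n : ℕ, K * (n : ℝ) ^ (-(3 / 2) : ℝ) with hS3
  have hlog : ∀ᶠ n : ℕ in atTop, max U0 1 ≤ Real.log n :=
    (Real.tendsto_log_atTop.comp tendsto_natCast_atTop_atTop).eventually_ge_atTop _
  refine ⟨B + (S3 + K), ?_⟩
  filter_upwards [hlog, eventually_ge_atTop 2] with n h1 h2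
  have hU0 : U0 ≤ Real.log n := le_trans (le_max_left _ _) h1
  have hU1 : 1 ≤ Real.log n := le_trans (le_max_right _ _) h1
  have hn0 : (0 : ℝ) < n := by exact_mod_cast (by omega : 0 < n)
  have hS1 := hS _ hU0
  rw [Real.exp_log hn0, Nat.floor_natCast] at hS1
  set U := Real.log n with hU
  have hUp : 0 < U := by linarith
  have hsplit : ∑ j ∈ Icc 1 n, (∑ k ∈ Icc 1 j, a k) / (j : ℝ) =
      a 1 + ∑ j ∈ Icc 2 n, (∑ k ∈ Icc 1 j, a k) / (j : ℝ) := by
    have e : Icc 1 n = insert 1 (Icc 2 n) := by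
      ext k; simp only [Finset.mem_Icc, Finset.mem_insert]; omega
    rw [e, Finset.sum_insert (by simp)]
    simp
  have hmain : |∑ j ∈ Icc 1 n, (∑ k ∈ Icc 1 j, a k) / (j : ℝ) -
      U * ∑ k ∈ Icc 1 n, a k * (1 - Real.log k / U)| ≤ S3 := by
    rw [sum_swap, Finset.mul_sum, ← Finset.sum_sub_distrib]
    calc |∑ k ∈ Icc 1 n, (a k * ∑ j ∈ Icc k n, (1 : ℝ) / j - U * (a k * (1 - Real.log k / U)))|
        ≤ ∑ k ∈ Icc 1 n, |a k * ∑ j ∈ Icc k n, (1 : ℝ) / j - U * (a k * (1 - Real.log k / U))| :=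
          Finset.abs_sum_le_sum_abs _ _
      _ ≤ ∑ k ∈ Icc 1 n, K * (k : ℝ) ^ (-(3 / 2) : ℝ) := by
          refine Finset.sum_le_sum fun k hk => ?_
          obtain ⟨hk1, hk2⟩ := Finset.mem_Icc.1 hk
          have hk0 : (0 : ℝ) < k := by exact_mod_cast hk1
          have e : a k * ∑ j ∈ Icc k n, (1 : ℝ) / j - U * (a k * (1 - Real.log k / U)) =
              a k * ((∑ j ∈ Icc k n, (1 : ℝ) / j) - (U - Real.log k)) := by
            field_simp
          rw [e, abs_mul]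
          have h5 := harm_up k n hk1 hk2
          have h6 := harm_low k n hk1 hk2
          have h7 : |(∑ j ∈ Icc k n, (1 : ℝ) / j) - (U - Real.log k)| ≤ (k : ℝ) ^ (-1 : ℝ) := by
            rw [Real.rpow_neg_one, ← one_div, abs_le]
            constructor
            · have : (0 : ℝ) ≤ 1 / k := by positivity
              linarith
            · linarith
          calc |a k| * |(∑ j ∈ Icc k n, (1 : ℝ) / j) - (U - Real.log k)|
              ≤ (K * (k : ℝ) ^ (-(1 / 2) : ℝ)) * (k : ℝ) ^ (-1 : ℝ) :=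
                mul_le_mul (ha k hk1) h7 (abs_nonneg _) (by positivity)
            _ = K * ((k : ℝ) ^ (-(1 / 2) : ℝ) * (k : ℝ) ^ (-1 : ℝ)) := by ring
            _ = K * (k : ℝ) ^ (-(3 / 2) : ℝ) := by
                rw [← Real.rpow_add hk0]; norm_num
      _ ≤ S3 := hsum.sum_le_tsum _ (fun k _ => by positivity)
  have ha1 : |a 1| ≤ K := by
    have := ha 1 le_rfl
    simpa using this
  have hfin : |∑ j ∈ Icc 2 n, (∑ k ∈ Icc 1 j, a k) / (j : ℝ)| ≤ U * B + (S3 + K) := by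
    have e : ∑ j ∈ Icc 2 n, (∑ k ∈ Icc 1 j, a k) / (j : ℝ) =
        (∑ j ∈ Icc 1 n, (∑ k ∈ Icc 1 j, a k) / (j : ℝ) -
          U * ∑ k ∈ Icc 1 n, a k * (1 - Real.log k / U)) +
        U * ∑ k ∈ Icc 1 n, a k * (1 - Real.log k / U) - a 1 := by
      rw [hsplit]; ring
    rw [e]
    have h8 : |U * ∑ k ∈ Icc 1 n, a k * (1 - Real.log k / U)| ≤ U * B := by
      rw [abs_mul, abs_of_pos hUp]
      exact mul_le_mul_of_nonneg_left hS1 hUp.le
    rw [abs_le] at *
    constructor <;> linarith [hmain.1, hmain.2, h8.1, h8.2, ha1.1, ha1.2]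
  have hS3p : 0 ≤ S3 := tsum_nonneg fun n => by positivity
  rw [abs_div, abs_of_pos hUp, div_le_iff₀ hUp]
  nlinarith [hfin]

end Pool.Agent.H705R3.BSD
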