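import Pool.Agent.H814R3.BSD.Stmts

/-! A bound, uniform in the length, for the right-hand side of the explicit formula. -/

set_option autoImplicit false

open Complex Filter Topology MeasureTheory

namespace Pool.Agent.H705R3.BSD

open Pool.Agent.H814R3.BSD

theorem log_le (x : ℝ) (hx : 0 ≤ x) :
    1 + Real.log (1 + x) ≤ 2 * (1 + x) ^ (1 / 2 : ℝ) := by
  have h1 : 0 < 1 + x := by linarith
  have h2 : 0 < (1 + x) ^ (1 / 2 : ℝ) := Real.rpow_pos_of_pos h1 _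
  have h3 : Real.log ((1 + x) ^ (1 / 2 : ℝ)) = 1 / 2 * Real.log (1 + x) :=
    Real.log_rpow h1 _
  have h4 := Real.log_le_sub_one_of_pos h2
  linarith

theorem major (Ck C τ : ℝ) (hCk : 0 ≤ Ck) (hC : 0 ≤ C) :
    Ck / (1 + τ ^ 2) * (C * (1 + Real.log (1 + |τ|))) ≤
      (4 * Ck * C) * (1 + ‖τ‖) ^ (-(3 / 2) : ℝ) := by
  have h0 : 0 ≤ |τ| := abs_nonneg τ
  have h1 : 0 < 1 + |τ| := by linarith
  have h2 := log_le |τ| h0
  have h3 : (1 + |τ|) ^ 2 ≤ 2 * (1 + τ ^ 2) := by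
    have : τ ^ 2 = |τ| ^ 2 := (sq_abs τ).symm
    rw [this]; nlinarith [sq_nonneg (|τ| - 1)]
  have h4 : (1 + |τ|) ^ (1 / 2 : ℝ) = (1 + |τ|) ^ (-(3 / 2) : ℝ) * (1 + |τ|) ^ 2 := by
    rw [← Real.rpow_natCast (1 + |τ|) 2, ← Real.rpow_add h1]
    norm_num
  have h5 : 0 < (1 + |τ|) ^ (-(3 / 2) : ℝ) := Real.rpow_pos_of_pos h1 _
  rw [Real.norm_eq_abs]
  set Y := (1 + |τ|) ^ (-(3 / 2) : ℝ) with hY
  have h6 : 1 + Real.log (1 + |τ|) ≤ 4 * Y * (1 + τ ^ 2) := by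
    calc 1 + Real.log (1 + |τ|) ≤ 2 * (Y * (1 + |τ|) ^ 2) := by rw [← h4]; exact h2
      _ ≤ 2 * (Y * (2 * (1 + τ ^ 2))) := by
          gcongr
      _ = 4 * Y * (1 + τ ^ 2) := by ring
  have h7 : 0 < 1 + τ ^ 2 := by positivity
  calc Ck / (1 + τ ^ 2) * (C * (1 + Real.log (1 + |τ|)))
      ≤ Ck / (1 + τ ^ 2) * (C * (4 * Y * (1 + τ ^ 2))) := by gcongr
    _ = (4 * Ck * C) * Y := by field_simp

theorem lim_bdd (h1 : TaskKap) (h : ℝ → ℝ → ℝ) (C δ U0 : ℝ) (hδ : 0 < δ) (hU0 : 1 ≤ U0)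
    (hcont : ∀ U : ℝ, U0 ≤ U → Continuous (h U))
    (hnear : ∀ U τ : ℝ, U0 ≤ U → |τ| ≤ δ * U → |h U τ| ≤ C * (1 + Real.log (1 + |τ|)))
    (hfar : ∀ U : ℝ, U0 ≤ U → Integrable (fun t : ℝ => |h U (U * t)| / (1 + t ^ 2)) ∧
      ∫ t : ℝ, |h U (U * t)| / (1 + t ^ 2) ≤ C * (1 + Real.log U)) :
    ∃ B : ℝ, ∀ U : ℝ, U0 ≤ U → |1 / (2 * Real.pi) * ∫ τ : ℝ, kap τ * h U τ| ≤ B := by
  obtain ⟨⟨Ck, hCk⟩, hkc, -⟩ := h1
  have hCk0 : 0 ≤ Ck := by
    have := (abs_nonneg _).trans (hCk 0)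
    simpa using this
  have hC0 : 0 ≤ C := by
    have := (abs_nonneg _).trans (hnear U0 0 le_rfl (by simp; positivity))
    simpa using this
  -- the far bound
  set K : ℝ := Ck * (1 + δ⁻¹ ^ 2) with hK
  have hK0 : 0 ≤ K := by positivity
  have hfarb : ∀ U τ : ℝ, U0 ≤ U → ¬ |τ| ≤ δ * U →
      |kap τ * h U τ| ≤ K / U ^ 2 * (|h U τ| / (1 + (τ / U) ^ 2)) := by
    intro U τ hU hτ
    push Not at hτ
    have hUp : 0 < U := by linarith
    have hτ0 : 0 < |τ| := lt_trans (by positivity) hτ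
    have hτ2 : 0 < τ ^ 2 := by rw [← sq_abs]; positivity
    rw [abs_mul]
    have e1 : |kap τ| ≤ K / U ^ 2 * (1 / (1 + (τ / U) ^ 2)) := by
      refine (hCk τ).trans ?_
      have e2 : K / U ^ 2 * (1 / (1 + (τ / U) ^ 2)) = Ck * ((1 + δ⁻¹ ^ 2) / (U ^ 2 + τ ^ 2)) := by
        rw [hK]; field_simp
      rw [e2, div_eq_mul_one_div]
      refine mul_le_mul_of_nonneg_left ?_ hCk0
      rw [div_le_div_iff₀ (by positivity) (by positivity)]
      have e3 : U ^ 2 ≤ δ⁻¹ ^ 2 * τ ^ 2 := by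
        have : U ≤ δ⁻¹ * |τ| := by
          rw [← div_eq_inv_mul, le_div_iff₀ hδ]; linarith
        calc U ^ 2 ≤ (δ⁻¹ * |τ|) ^ 2 := pow_le_pow_left₀ hUp.le this 2
          _ = δ⁻¹ ^ 2 * τ ^ 2 := by rw [mul_pow, sq_abs]
      nlinarith [sq_nonneg δ⁻¹]
    calc |kap τ| * |h U τ| ≤ K / U ^ 2 * (1 / (1 + (τ / U) ^ 2)) * |h U τ| :=
          mul_le_mul_of_nonneg_right e1 (abs_nonneg _)
      _ = K / U ^ 2 * (|h U τ| / (1 + (τ / U) ^ 2)) := by ring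
  have hnearb : ∀ U τ : ℝ, U0 ≤ U → |τ| ≤ δ * U →
      |kap τ * h U τ| ≤ (4 * Ck * C) * (1 + ‖τ‖) ^ (-(3 / 2) : ℝ) := by
    intro U τ hU hτ
    refine le_trans ?_ (major Ck C τ hCk0 hC0)
    rw [abs_mul]
    exact mul_le_mul (hCk τ) (hnear U τ hU hτ) (abs_nonneg _) (by positivity)
  have hmaj : Integrable (fun τ : ℝ => (4 * Ck * C) * (1 + ‖τ‖) ^ (-(3 / 2) : ℝ)) := by
    refine Integrable.const_mul ?_ _
    exact integrable_one_add_norm (by norm_num)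
  have hG : ∀ U : ℝ, U0 ≤ U → Integrable (fun τ : ℝ => |h U τ| / (1 + (τ / U) ^ 2)) ∧
      ∫ τ : ℝ, |h U τ| / (1 + (τ / U) ^ 2) ≤ U * (C * (1 + Real.log U)) := by
    intro U hU
    have hUp : 0 < U := by linarith
    obtain ⟨i1, i2⟩ := hfar U hU
    have e : (fun τ : ℝ => |h U τ| / (1 + (τ / U) ^ 2)) =
        fun τ : ℝ => (fun t : ℝ => |h U (U * t)| / (1 + t ^ 2)) (τ / U) := by
      funext τ
      have : U * (τ / U) = τ := by field_simp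
      simp only [this]
    rw [e]
    refine ⟨i1.comp_div hUp.ne', ?_⟩
    have e3 := Measure.integral_comp_div (fun t : ℝ => |h U (U * t)| / (1 + t ^ 2)) U
    refine (le_of_eq e3).trans ?_
    rw [smul_eq_mul, abs_of_pos hUp]
    exact mul_le_mul_of_nonneg_left i2 hUp.le
  have hall : ∀ U τ : ℝ, U0 ≤ U → |kap τ * h U τ| ≤
      (4 * Ck * C) * (1 + ‖τ‖) ^ (-(3 / 2) : ℝ) + K / U ^ 2 * (|h U τ| / (1 + (τ / U) ^ 2)) := by
    intro U τ hU
    have hUp : 0 < U := by linarith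
    have p1 : 0 ≤ (4 * Ck * C) * (1 + ‖τ‖) ^ (-(3 / 2) : ℝ) := by positivity
    have p2 : 0 ≤ K / U ^ 2 * (|h U τ| / (1 + (τ / U) ^ 2)) := by positivity
    by_cases hτ : |τ| ≤ δ * U
    · have := hnearb U τ hU hτ
      linarith
    · have := hfarb U τ hU hτ
      linarith
  set J := ∫ τ : ℝ, (4 * Ck * C) * (1 + ‖τ‖) ^ (-(3 / 2) : ℝ) with hJ
  refine ⟨1 / (2 * Real.pi) * (J + 2 * (K * C)), fun U hU => ?_⟩
  have hUp : 0 < U := by linarith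
  have hU1 : 1 ≤ U := by linarith
  have hint := (hmaj.add ((hG U hU).1.const_mul (K / U ^ 2)))
  have hb := norm_integral_le_of_norm_le hint (f := fun τ : ℝ => kap τ * h U τ)
    (Eventually.of_forall fun τ => by
      simp only [Pi.add_apply]
      rw [Real.norm_eq_abs]
      exact hall U τ hU)
  rw [abs_mul, abs_of_pos (by positivity : 0 < 1 / (2 * Real.pi))]
  refine mul_le_mul_of_nonneg_left ?_ (by positivity)
  rw [← Real.norm_eq_abs]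
  refine hb.trans ?_
  simp only [Pi.add_apply]
  rw [integral_add hmaj ((hG U hU).1.const_mul (K / U ^ 2)), integral_const_mul (K / U ^ 2)]
  have h3 : K / U ^ 2 * ∫ τ : ℝ, |h U τ| / (1 + (τ / U) ^ 2) ≤
      K / U ^ 2 * (U * (C * (1 + Real.log U))) :=
    mul_le_mul_of_nonneg_left (hG U hU).2 (by positivity)
  have h4 : K / U ^ 2 * (U * (C * (1 + Real.log U))) = K * C * ((1 + Real.log U) / U) := by
    field_simp
  have h5 : (1 + Real.log U) / U ≤ 2 := by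
    rw [div_le_iff₀ hUp]
    have := Real.log_le_sub_one_of_pos hUp
    linarith
  have h6 : K * C * ((1 + Real.log U) / U) ≤ K * C * 2 :=
    mul_le_mul_of_nonneg_left h5 (by positivity)
  linarith

end Pool.Agent.H705R3.BSD
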