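import Pool.Agent.H705R3.BSD.Bdd

/-! The equivalence for bounded logarithmic averages. -/

set_option autoImplicit false
set_option maxHeartbeats 2000000

open Complex Filter Topology Finset MeasureTheory

namespace Pool.Agent.H705R3.BSD

open Pool.Agent.H438R3.BSD Pool.Agent.H814R3.BSD
open Classical

/-- the bound under the Riemann hypothesis -/
def AvgBounded : Prop := ∀ (a b : ℤ) (F : ℂ → ℂ), IsL a b F →
    (∃ C K : ℝ, ∀ s : ℂ, 1 ≤ s.re → ‖F s‖ ≤ C * (1 + ‖s‖) ^ K) →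
    (∀ s : ℂ, 1 < s.re → F s ≠ 0) →
    ∀ (m : ℕ) (g : ℂ → ℂ), AnalyticAt ℂ g 1 → g 1 ≠ 0 →
    (∀ᶠ z in 𝓝 (1 : ℂ), F z = (z - 1) ^ m * g z) →
    ∃ B : ℝ, ∀ᶠ n : ℕ in atTop, |LA a b m n| ≤ B

theorem bdd_all {f : ℕ → ℝ} (h : ∃ B : ℝ, ∀ᶠ n : ℕ in atTop, |f n| ≤ B) :
    ∃ B : ℝ, ∀ n : ℕ, |f n| ≤ B := by
  obtain ⟨B, hB⟩ := h
  obtain ⟨N, hN⟩ := eventually_atTop.1 hB
  refine ⟨|B| + ∑ k ∈ Finset.range N, |f k|, fun n => ?_⟩
  have hs : 0 ≤ ∑ k ∈ Finset.range N, |f k| := Finset.sum_nonneg fun k _ => abs_nonneg _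
  by_cases hn : N ≤ n
  · have h1 := hN n hn
    have h2 := le_abs_self B
    linarith
  · push Not at hn
    have h1 : |f n| ≤ ∑ k ∈ Finset.range N, |f k| :=
      Finset.single_le_sum (f := fun k => |f k|) (fun k _ => abs_nonneg _) (Finset.mem_range.2 hn)
    have h2 := abs_nonneg B
    linarith

/-- the averages of `log log n` are bounded below -/
theorem avg_loglog (n : ℕ) :
    -2 ≤ (∑ k ∈ Finset.Icc 2 n, Real.log (Real.log k) / k) / Real.log n := by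
  rcases Nat.lt_or_ge n 2 with h | h
  · have : Finset.Icc 2 n = ∅ := Finset.Icc_eq_empty (by omega)
    rw [this]
    simp
  · have hnr : (2 : ℝ) ≤ n := by exact_mod_cast h
    have hl2 := Real.log_two_gt_d9
    have hln : Real.log 2 ≤ Real.log n := Real.log_le_log (by norm_num) hnr
    have hlpos : 0 < Real.log n := by linarith
    rw [le_div_iff₀ hlpos]
    have h1 : -1 ≤ Real.log (Real.log 2) / 2 := by
      have h2 : Real.log (1 / 2) ≤ Real.log (Real.log 2) :=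
        Real.log_le_log (by norm_num) (by linarith)
      have h3 : Real.log (1 / 2 : ℝ) = -Real.log 2 := by
        rw [one_div, Real.log_inv]
      have h4 := Real.log_two_lt_d9
      linarith
    have h5 : ∀ k ∈ Finset.Icc 2 n, (if k = 2 then (-1 : ℝ) else 0) ≤
        Real.log (Real.log k) / k := by
      intro k hk
      have hk2 : 2 ≤ k := (Finset.mem_Icc.1 hk).1
      split_ifs with h6
      · subst h6
        exact_mod_cast h1
      · have hk3 : (3 : ℝ) ≤ k := by exact_mod_cast (by omega : 3 ≤ k)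
        have h7 : 1 ≤ Real.log k := by
          have h8 : Real.log (Real.exp 1) ≤ Real.log k :=
            Real.log_le_log (Real.exp_pos 1) (by have := Real.exp_one_lt_d9; linarith)
          rwa [Real.log_exp] at h8
        have h9 : 0 ≤ Real.log (Real.log k) := Real.log_nonneg h7
        positivity
    have h6 := Finset.sum_le_sum h5
    have h7 : ∑ k ∈ Finset.Icc 2 n, (if k = 2 then (-1 : ℝ) else 0) = -1 := by
      rw [Finset.sum_ite_eq' (Finset.Icc 2 n) 2 (fun _ => (-1 : ℝ))]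
      simp [h]
    rw [h7] at h6
    linarith

theorem LA_sub (a b : ℤ) (κ μ : ℝ) (n : ℕ) : LA a b κ n = LA a b μ n -
    (κ - μ) * ((∑ k ∈ Finset.Icc 2 n, Real.log (Real.log k) / k) / Real.log n) := by
  unfold LA
  rw [← mul_div_assoc, ← sub_div, Finset.mul_sum, ← Finset.sum_sub_distrib]
  congr 1
  refine Finset.sum_congr rfl fun j _ => ?_
  ring

theorem equiv_bdd (hA : AvgBounded) (a b : ℤ) (F : ℂ → ℂ)
    (hF : IsL a b F) (hgr : ∃ C K : ℝ, ∀ s : ℂ, 1 ≤ s.re → ‖F s‖ ≤ C * (1 + ‖s‖) ^ K) :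
    ∃ m : ℕ, analyticOrderAt F 1 = m ∧ ∀ κ : ℝ,
      ((∃ C : ℝ, ∀ x : ℕ, LA a b κ x ≤ C) ↔ (∀ s : ℂ, 1 < s.re → F s ≠ 0) ∧ (m : ℝ) ≤ κ) ∧
      ((∃ C : ℝ, ∀ x : ℕ, |LA a b κ x| ≤ C) ↔ (∀ s : ℂ, 1 < s.re → F s ≠ 0) ∧ (m : ℝ) = κ) := by
  obtain ⟨m, hm, hM⟩ := main hF
  obtain ⟨g, hga, hg1, hfac⟩ := (hF.1.analyticAt 1).analyticOrderAt_eq_natCast.1 hm
  have hfac' : ∀ᶠ z in 𝓝 (1 : ℂ), F z = (z - 1) ^ m * g z := by
    filter_upwards [hfac] with z hz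
    rw [hz, smul_eq_mul]
  have up : ∀ κ : ℝ, (∃ K : ℝ, ∀ n : ℕ, LA a b κ n ≤ K) →
      (∀ s : ℂ, 1 < s.re → F s ≠ 0) ∧ (m : ℝ) ≤ κ := by
    rintro κ ⟨K, hK⟩
    have h1 : ¬ (κ < m ∨ ∃ ρ : ℂ, 1 < ρ.re ∧ F ρ = 0) := by
      intro h
      have h2 := (hM.1 κ h K).1
      obtain ⟨n, hn⟩ := h2.exists
      exact absurd (hK n) (not_le.2 hn)
    push Not at h1
    exact ⟨fun s hs => h1.2 s hs, h1.1⟩
  have down : (∀ s : ℂ, 1 < s.re → F s ≠ 0) → ∃ B : ℝ, ∀ n : ℕ, |LA a b m n| ≤ B :=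
    fun h => bdd_all (hA a b F hF hgr h m g hga hg1 hfac')
  refine ⟨m, hm, fun κ => ⟨⟨up κ, ?_⟩, ?_, ?_⟩⟩
  · rintro ⟨h1, h2⟩
    obtain ⟨B, hB⟩ := down h1
    refine ⟨B + (κ - m) * 2, fun n => ?_⟩
    rw [LA_sub a b κ m n]
    have h3 := avg_loglog n
    have h4 := (abs_le.1 (hB n)).2
    have h5 : 0 ≤ κ - m := by linarith
    nlinarith
  · rintro ⟨K, hK⟩
    obtain ⟨h1, h2⟩ := up κ ⟨K, fun n => (le_abs_self _).trans (hK n)⟩
    refine ⟨h1, le_antisymm h2 ?_⟩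
    by_contra hcon
    push Not at hcon
    have h3 := (hM.2 (fun σ hσ => h1 σ (by simpa using hσ)) κ (Or.inl hcon) (|K| + 1)
      (by have := abs_nonneg K; linarith)).1
    obtain ⟨n, hn⟩ := h3.exists
    have h4 := (abs_le.1 (hK n)).1
    have h5 := le_abs_self K
    linarith
  · rintro ⟨h1, h2⟩
    rw [← h2]
    exact down h1

end Pool.Agent.H705R3.BSD
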