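import Pool.Agent.H705R3.BSD.Ratio
import Pool.Agent.H814R3.BSD.Fin

/-! The final equivalences for the averaged products. -/

set_option autoImplicit false
set_option maxHeartbeats 2000000

open Complex Filter Topology Finset MeasureTheory

namespace Pool.Agent.H705R3.BSD

open Pool.Agent.H438R3.BSD Pool.Agent.H814R3.BSD
open Classical

theorem avgBounded : AvgBounded := fun a b F hF hgr hRH m g hga hg1 hfac =>
  avg_bounded TKap.kap_ok
    (TPerron.perron_ok TKap.kap_ok (TInv.inv_ok TKap.kap_ok) TShift.shift_ok) BCx.bc_ok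
    TPois.pois_ok (TEuler.euler_ok log_ok) taskZ TZ0.Z0_ok TDD.dd_ok taskAvg2
    a b F hF hgr hRH m g hga hg1 hfac

/-- an eventual lower bound for the quotient gives a lower bound for the averages -/
theorem LA_of_MR' (a b : ℤ) (κ : ℝ) (h : ∀ᶠ x : ℕ in atTop, κ ≤ MR a b x) :
    ∃ C : ℝ, ∀ x : ℕ, -C ≤ LA a b κ x := by
  have h1 : ∀ᶠ x : ℕ in atTop, 0 ≤ LA a b κ x := by
    filter_upwards [h, ev_pos] with n h1 h2
    rw [MR_eq a b κ n h2.1 h2.2.2.ne'] at h1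
    have h3 : 0 < Real.log n / DL n := div_pos h2.2.1 h2.2.2
    by_contra hc
    push Not at hc
    have := mul_neg_of_neg_of_pos hc h3
    linarith
  obtain ⟨N, hN⟩ := eventually_atTop.1 h1
  refine ⟨∑ k ∈ Finset.range N, |LA a b κ k|, fun n => ?_⟩
  by_cases hn : N ≤ n
  · have := Finset.sum_nonneg (s := Finset.range N) (f := fun k => |LA a b κ k|)
      fun k _ => abs_nonneg _
    linarith [hN n hn]
  · push Not at hn
    have := Finset.single_le_sum (f := fun k => |LA a b κ k|)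
      (fun k _ => abs_nonneg _) (Finset.mem_range.2 hn)
    linarith [neg_abs_le (LA a b κ n)]

/-- the version for lower bounds, for a function without real zeros greater than `1` -/
theorem equiv_low (a b : ℤ) (F : ℂ → ℂ)
    (hF : IsL a b F) (hgr : ∃ C K : ℝ, ∀ s : ℂ, 1 ≤ s.re → ‖F s‖ ≤ C * (1 + ‖s‖) ^ K)
    (hre : ∀ σ : ℝ, 1 < σ → F σ ≠ 0) (m : ℕ) (hm : analyticOrderAt F 1 = m) (κ : ℝ) :
    List.TFAE [
      (∀ s : ℂ, 1 < s.re → F s ≠ 0) ∧ κ ≤ m,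
      ∃ C : ℝ, ∀ x : ℕ, -C ≤ LA a b κ x,
      ∀ ε : ℝ, 0 < ε → ∀ᶠ x : ℕ in atTop, κ - ε ≤ MR a b x] := by
  obtain ⟨m', hm', hM⟩ := equiv_bdd avgBounded a b F hF hgr
  have e1 : m' = m := by
    rw [hm] at hm'
    exact_mod_cast hm'.symm
  subst e1
  obtain ⟨m'', hm'', hN⟩ := main hF
  have e2 : m'' = m' := by
    rw [hm] at hm''
    exact_mod_cast hm''.symm
  subst e2
  have dn : ∀ κ : ℝ, (∃ C : ℝ, ∀ x : ℕ, -C ≤ LA a b κ x) →
      (∀ s : ℂ, 1 < s.re → F s ≠ 0) ∧ κ ≤ m'' := by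
    rintro κ ⟨C, hC⟩
    have h1 : ¬ ((m'' : ℝ) < κ ∨ ∃ ρ : ℂ, 1 < ρ.re ∧ F ρ = 0) := by
      intro h
      have h2 := (hN.2 hre κ h (|C| + 1) (by have := abs_nonneg C; linarith)).1
      obtain ⟨n, hn⟩ := h2.exists
      have h3 := hC n
      have h4 := le_abs_self C
      linarith
    push Not at h1
    exact ⟨fun s hs => h1.2 s hs, h1.1⟩
  tfae_have 2 → 1 := dn κ
  tfae_have 1 → 2 := by
    rintro ⟨h1, h2⟩
    obtain ⟨B, hB⟩ := (hM m'').2.2 ⟨h1, rfl⟩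
    refine ⟨B + (m'' - κ) * 2, fun n => ?_⟩
    rw [LA_sub a b κ m'' n]
    have h3 := avg_loglog n
    have h4 := (abs_le.1 (hB n)).1
    have h5 : 0 ≤ m'' - κ := by linarith
    nlinarith
  tfae_have 1 → 3 := by
    rintro ⟨h1, h2⟩ ε hε
    have h3 := MR_tendsto a b m'' ((hM m'').2.2 ⟨h1, rfl⟩)
    exact h3.eventually (eventually_ge_nhds (by linarith))
  tfae_have 3 → 1 := by
    intro h
    have h1 : ∀ ε : ℝ, 0 < ε → (∀ s : ℂ, 1 < s.re → F s ≠ 0) ∧ κ - ε ≤ m'' := fun ε hε =>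
      dn (κ - ε) (LA_of_MR' a b (κ - ε) (h ε hε))
    refine ⟨(h1 1 one_pos).1, le_of_forall_pos_le_add fun ε hε => ?_⟩
    have := (h1 ε hε).2
    linarith
  tfae_finish

/-- the rank of the group of rational points of `y² = x³ + a x + b` -/
noncomputable def rk (a b : ℤ) : ℕ :=
  Module.finrank ℤ (WeierstrassCurve.Affine.Point (WeierstrassCurve.toAffine
    ({ a₁ := 0, a₂ := 0, a₃ := 0, a₄ := (a : ℚ), a₆ := (b : ℚ) } : WeierstrassCurve ℚ)))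

theorem final (a b : ℤ) (hab : 4 * a ^ 3 + 27 * b ^ 2 ≠ 0) (F : ℂ → ℂ) (hF : IsL a b F)
    (hgr : ∃ A K : ℝ, ∀ s : ℂ, 1 ≤ s.re → ‖F s‖ ≤ A * (1 + ‖s‖) ^ K) :
    ∃ (m : ℕ) (l : ℂ), analyticOrderAt F 1 = m ∧ l ≠ 0 ∧
      Tendsto (fun s : ℂ => F s / (s - 1) ^ m) (𝓝[≠] 1) (𝓝 l) ∧
      (∀ κ : ℝ, List.TFAE [
        (∀ s : ℂ, 1 < s.re → F s ≠ 0) ∧ m = κ,
        ∃ C : ℝ, ∀ x : ℕ, |LA a b κ x| ≤ C,
        Tendsto (MR a b) atTop (𝓝 κ)]) ∧
      (∀ κ : ℝ, List.TFAE [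
        (∀ s : ℂ, 1 < s.re → F s ≠ 0) ∧ m ≤ κ,
        ∃ C : ℝ, ∀ x : ℕ, LA a b κ x ≤ C,
        ∀ ε : ℝ, 0 < ε → ∀ᶠ x : ℕ in atTop, MR a b x ≤ κ + ε]) ∧
      ((∀ σ : ℝ, 1 < σ → F σ ≠ 0) → ∀ κ : ℝ, List.TFAE [
        (∀ s : ℂ, 1 < s.re → F s ≠ 0) ∧ κ ≤ m,
        ∃ C : ℝ, ∀ x : ℕ, -C ≤ LA a b κ x,
        ∀ ε : ℝ, 0 < ε → ∀ᶠ x : ℕ in atTop, κ - ε ≤ MR a b x]) ∧
      (RS a b → ∀ κ : ℝ, List.TFAE [
        (∀ s : ℂ, 1 < s.re → F s ≠ 0) ∧ m = κ,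
        ∃ t : ℝ, Tendsto (fun x : ℕ => LA a b κ x) atTop (𝓝 t),
        Tendsto (fun x : ℕ => LA a b κ x) atTop
          (𝓝 (Real.log (√2 * Real.exp (κ * Real.eulerMascheroniConstant) / ‖l‖)))]) ∧
      List.TFAE [
        (∀ s : ℂ, 1 < s.re → F s ≠ 0) ∧ analyticOrderAt F 1 = (rk a b : ℕ∞),
        ∃ C : ℝ, ∀ x : ℕ, |LA a b (rk a b) x| ≤ C,
        Tendsto (MR a b) atTop (𝓝 (rk a b))] := by
  obtain ⟨m, l, hm, hl, ht, h1, h2⟩ := equiv_all avgBounded a b F hF hgr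
  refine ⟨m, l, hm, hl, ht, h2, h1, fun hre κ => equiv_low a b F hF hgr hre m hm κ,
    fun hRS κ => ?_, ?_⟩
  · obtain ⟨m', l', hm', hl', ht', h3⟩ := equiv avgLimit a b hab F hF hgr hRS
    have e1 : m' = m := by
      rw [hm] at hm'
      exact_mod_cast hm'.symm
    subst e1
    have e2 : l' = l := tendsto_nhds_unique ht' ht
    subst e2
    have e : Real.log (√2 * Real.exp (κ * Real.eulerMascheroniConstant) / ‖l'‖) =
        Real.log 2 / 2 + κ * Real.eulerMascheroniConstant - Real.log ‖l'‖ := by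
      have h2 : (√2 : ℝ) ≠ 0 := by positivity
      have hl' : ‖l'‖ ≠ 0 := norm_ne_zero_iff.2 hl
      rw [Real.log_div (mul_ne_zero h2 (Real.exp_ne_zero _)) hl',
        Real.log_mul h2 (Real.exp_ne_zero _), Real.log_exp, Real.log_sqrt (by norm_num)]
    rw [e]
    have h4 := h3 κ
    tfae_have 1 ↔ 2 := by
      rw [← (h4.out 0 3 :)]
      constructor
      · rintro ⟨a1, a2⟩; exact ⟨a1, a2.symm⟩
      · rintro ⟨a1, a2⟩; exact ⟨a1, a2.symm⟩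
    tfae_have 2 ↔ 3 := h4.out 3 4
    tfae_finish
  · have h3 := h2 (rk a b)
    tfae_have 1 ↔ 2 := by
      rw [← (h3.out 0 1 :), hm]
      refine and_congr_right fun _ => ?_
      constructor
      · intro h
        have : m = rk a b := by exact_mod_cast h
        rw [this]
      · intro h
        have : m = rk a b := by exact_mod_cast h
        rw [this]
    tfae_have 2 ↔ 3 := h3.out 1 2
    tfae_finish

end Pool.Agent.H705R3.BSD
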