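import Pool.Agent.H705R3.BSD.Fin

/-! Bounds for the averaged products imply the continuation of the `L`-series to `Re s > 1`,
without zeros; nothing is assumed about the `L`-series. -/

set_option autoImplicit false
set_option maxHeartbeats 2000000

open Complex Filter Topology Finset MeasureTheory

namespace Pool.Agent.H705R3.BSD

open Pool.Agent.H438R3.BSD Pool.Agent.H814R3.BSD
open Classical

section coeffs

variable (a b : ℤ) (κ : ℝ)

/-- the coefficients, for a real exponent -/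
noncomputable def cr (n : ℕ) : ℝ := ell (Good a b) (al a b) n - κ * zz n

lemma cr_le (n : ℕ) (hn : 1 ≤ n) : |cr a b κ n| ≤ (5 + 2 * |κ|) * (n : ℝ) ^ (-(1 / 2) : ℝ) := by
  unfold cr
  have h1 := ell_le (good_prime a b) (good_norm a b) n hn
  have h2 := zz_le n hn
  have h3 := Pool.Agent.H814R3.BSD.zz_nonneg n
  have h4 : |κ * zz n| ≤ |κ| * (2 * (n : ℝ) ^ (-(1 / 2) : ℝ)) := by
    rw [abs_mul, abs_of_nonneg h3]
    exact mul_le_mul_of_nonneg_left h2 (by positivity)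
  calc |ell (Good a b) (al a b) n - κ * zz n| ≤ |ell (Good a b) (al a b) n| + |κ * zz n| :=
        abs_sub _ _
    _ ≤ _ := by linarith

lemma PS_cr_le (n : ℕ) (_hn : 1 ≤ n) :
    |PS 0 (cr a b κ) n| ≤ 2 * (5 + 2 * |κ|) * (n : ℝ) ^ (1 / 2 : ℝ) := by
  unfold PS
  rw [zero_add]
  calc |∑ k ∈ Icc 1 n, cr a b κ k| ≤ ∑ k ∈ Icc 1 n, |cr a b κ k| := Finset.abs_sum_le_sum_abs _ _
    _ ≤ ∑ k ∈ Icc 1 n, (5 + 2 * |κ|) * (k : ℝ) ^ (-(1 / 2) : ℝ) :=
        Finset.sum_le_sum fun k hk => cr_le a b κ k (mem_Icc.1 hk).1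
    _ = (5 + 2 * |κ|) * ∑ k ∈ Icc 1 n, (k : ℝ) ^ (-(1 / 2) : ℝ) := by rw [Finset.mul_sum]
    _ ≤ (5 + 2 * |κ|) * (2 * (n : ℝ) ^ (1 / 2 : ℝ)) :=
        mul_le_mul_of_nonneg_left (sum_rpow_half n) (by positivity)
    _ = _ := by ring

lemma sum_cr (j : ℕ) : ∑ k ∈ Finset.Icc 1 j, cr a b κ k =
    Real.log (EP a b j) - κ * ∑ k ∈ Finset.Icc 1 j, zz k := by
  unfold cr
  rw [Finset.sum_sub_distrib, ← Finset.mul_sum, log_EP]
  congr 1
  refine Finset.sum_congr rfl fun p _ => ?_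
  split_ifs with hp
  · rfl
  · have : ¬ Good a b p := fun h => hp h.1
    simp [ell, this]

lemma cr_zero : cr a b κ 0 = 0 := by simp [cr, ell_zero, zz_zero]

lemma cr_one : cr a b κ 1 = 0 := by
  have : ¬ Good a b 1 := fun h => Nat.not_prime_one h.1
  simp [cr, ell, this, zz]

lemma AS_cr (n : ℕ) : AS 0 (cr a b κ) n = ∑ k ∈ Finset.Icc 2 n,
    (Real.log (EP a b k) - κ * ∑ j ∈ Finset.Icc 1 k, zz j) / k := by
  unfold AS
  rw [PS, zero_add]
  rcases Nat.eq_zero_or_pos n with h | h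
  · subst h; simp
  · rw [Icc_split h, Finset.sum_insert (by simp)]
    have h1 : PS 0 (cr a b κ) 1 = 0 := by
      unfold PS
      simp [cr_one]
    rw [h1, zero_div, zero_add]
    refine Finset.sum_congr rfl fun k _ => ?_
    unfold PS
    rw [zero_add, sum_cr]

/-- difference between the averages with `zz` and with `log log` -/
lemma AS_cr' (n : ℕ) : AS 0 (cr a b κ) n = (∑ k ∈ Finset.Icc 2 n,
    (Real.log (EP a b k) - κ * Real.log (Real.log k)) / k) -
    κ * ∑ k ∈ Finset.Icc 2 n, ((∑ j ∈ Finset.Icc 1 k, zz j) - Real.log (Real.log k)) / k := by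
  rw [AS_cr, Finset.mul_sum, ← Finset.sum_sub_distrib]
  refine Finset.sum_congr rfl fun k _ => ?_
  ring

end coeffs

lemma harm_le (n : ℕ) : ∑ k ∈ Finset.Icc 2 n, (1 : ℝ) / k ≤ 1 + Real.log n := by
  have h := harmonic_le_one_add_log n
  rw [harmonic_eq_sum_Icc] at h
  push_cast at h
  refine le_trans ?_ h
  simp only [one_div]
  exact Finset.sum_le_sum_of_subset_of_nonneg (Finset.Icc_subset_Icc_left (by norm_num))
      (fun i _ _ => by positivity)

lemma zz_diff : ∃ c0 : ℝ, 0 ≤ c0 ∧ ∀ n : ℕ,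
    |∑ k ∈ Finset.Icc 2 n, ((∑ j ∈ Finset.Icc 1 k, zz j) - Real.log (Real.log k)) / k| ≤
      c0 * (1 + Real.log n) := by
  obtain ⟨c, hc, -⟩ := TZ0.Z0_ok
  obtain ⟨K, hK⟩ := (Metric.isBounded_range_of_tendsto _ hc).exists_norm_le
  have hK' : ∀ n : ℕ, |(∑ k ∈ Finset.Icc 1 n, zz k) - Real.log (Real.log n)| ≤ K := fun n => by
    have := hK _ (Set.mem_range_self n)
    rwa [Real.norm_eq_abs] at this
  have hK0 : 0 ≤ K := (abs_nonneg _).trans (hK' 0)
  refine ⟨K, hK0, fun n => ?_⟩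
  refine (Finset.abs_sum_le_sum_abs _ _).trans ?_
  refine le_trans (Finset.sum_le_sum (g := fun k : ℕ => K * ((1 : ℝ) / k)) fun k hk => ?_) ?_
  · have hk2 : 2 ≤ k := (Finset.mem_Icc.1 hk).1
    have hk0 : (0 : ℝ) < k := by exact_mod_cast (by omega : 0 < k)
    rw [abs_div, abs_of_pos hk0, mul_one_div]
    exact div_le_div_of_nonneg_right (hK' k) hk0.le
  · rw [← Finset.mul_sum]
    exact mul_le_mul_of_nonneg_left (harm_le n) hK0

/-- `1 + log n ≤ (1 + 1/δ) n^δ` -/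
lemma one_log_le (n : ℕ) (hn : 1 ≤ n) (δ : ℝ) (hδ : 0 < δ) :
    1 + Real.log n ≤ (1 + 1 / δ) * (n : ℝ) ^ δ := by
  have hn1 : (1 : ℝ) ≤ n := by exact_mod_cast hn
  have h1 := Real.log_le_rpow_div (x := (n : ℝ)) (by linarith) hδ
  have h2 : 1 ≤ (n : ℝ) ^ δ := Real.one_le_rpow hn1 hδ.le
  have h3 : (n : ℝ) ^ δ / δ = 1 / δ * (n : ℝ) ^ δ := by ring
  rw [h3] at h1
  nlinarith

lemma zeta_le (t : ℝ) (ht : 0 < t) : Summable (fun n : ℕ => (n : ℝ) ^ (-(1 + t))) ∧
    ∑' n : ℕ, (n : ℝ) ^ (-(1 + t)) ≤ 1 + 1 / t := by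
  have hs : Summable (fun n : ℕ => (n : ℝ) ^ (-(1 + t))) :=
    Real.summable_nat_rpow.2 (by linarith)
  refine ⟨hs, ?_⟩
  refine hs.tsum_le_of_sum_range_le (fun N => ?_)
  have h1 : ∑ i ∈ range N, (i : ℝ) ^ (-(1 + t)) ≤ ∑ i ∈ range (N + 2), (i : ℝ) ^ (-(1 + t)) :=
    Finset.sum_le_sum_of_subset_of_nonneg (Finset.range_mono (by omega))
      (fun i _ _ => by positivity)
  refine h1.trans ?_
  rw [Finset.sum_range_succ' _ (N + 1), Finset.sum_range_succ' _ N]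
  have h2 := Pool.Agent.H814R3.BSD.TZ99.tele_sum ht N
  rw [← Finset.mul_sum] at h2
  have h3 : 0 ≤ ((N : ℝ) + 1) ^ (-t) := by positivity
  have h4 : ∑ m ∈ range N, ((m : ℝ) + 2) ^ (-(1 + t)) ≤ 1 / t := by
    rw [le_div_iff₀ ht]
    linarith
  have h5 : ∑ k ∈ range N, ((k + 1 + 1 : ℕ) : ℝ) ^ (-(1 + t)) =
      ∑ m ∈ range N, ((m : ℝ) + 2) ^ (-(1 + t)) := by
    refine Finset.sum_congr rfl fun k _ => ?_
    congr 1
    push_cast
    ring
  rw [h5]
  have h6 : ((0 + 1 : ℕ) : ℝ) ^ (-(1 + t)) = 1 := by simp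
  have h7 : ((0 : ℕ) : ℝ) ^ (-(1 + t)) = 0 := by
    rw [Nat.cast_zero, Real.zero_rpow (by linarith)]
  rw [h6, h7]
  linarith

/-- the second partial sums -/
noncomputable def TT (a b : ℤ) (κ : ℝ) (n : ℕ) : ℝ := AS 0 (cr a b κ) n

section

variable {a b : ℤ} {κ : ℝ}

lemma TT_summ {K : ℝ} (hT : ∀ n : ℕ, 1 ≤ n → |TT a b κ n| ≤ K * (1 + Real.log n) ^ 2)
    (s : ℂ) (hs : 1 < s.re) : LSeriesSummable (fun n => (TT a b κ n : ℂ)) s := by
  have hK : 0 ≤ K := by
    have := (abs_nonneg _).trans (hT 1 le_rfl)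
    simpa using this
  set δ : ℝ := (s.re - 1) / 4 with hδ
  have hδ0 : 0 < δ := by rw [hδ]; linarith
  refine LSeriesSummable_of_le_const_mul_rpow (x := 1 + 2 * δ) (by rw [hδ]; linarith)
    ⟨K * (1 + 1 / δ) ^ 2, fun n hn => ?_⟩
  have hn1 : 1 ≤ n := by omega
  have hn0 : (0 : ℝ) < n := by exact_mod_cast hn1
  rw [Complex.norm_real, Real.norm_eq_abs]
  refine (hT n hn1).trans ?_
  have h1 := one_log_le n hn1 δ hδ0
  have h2 : 0 ≤ 1 + Real.log n := by have := Real.log_natCast_nonneg n; linarith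
  have e : (n : ℝ) ^ (1 + 2 * δ - 1) = ((n : ℝ) ^ δ) ^ 2 := by
    rw [← Real.rpow_natCast, ← Real.rpow_mul hn0.le]
    congr 1
    push_cast
    ring
  rw [e, mul_assoc, ← mul_pow]
  exact mul_le_mul_of_nonneg_left (pow_le_pow_left₀ h2 h1 2) hK

/-- the continuation of the Dirichlet series of `cr` -/
noncomputable def Hx (a b : ℤ) (κ : ℝ) (w : ℂ) : ℂ :=
  w ^ 2 * LSeries (fun n => (TT a b κ n : ℂ)) (1 + w) -
    w * EE 0 (fun k => PS 0 (cr a b κ) k / k) (1 + w) - EE 0 (cr a b κ) (1 + w)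

lemma AS_cr_le (n : ℕ) (_hn : 1 ≤ n) :
    |PS 0 (fun k => PS 0 (cr a b κ) k / k) n| ≤
      2 * (2 * (5 + 2 * |κ|)) * (n : ℝ) ^ (1 / 2 : ℝ) :=
  AS_le (C := 0) (m := cr a b κ) (K := 2 * (5 + 2 * |κ|)) (by positivity)
    (fun k hk => PS_cr_le a b κ k hk) n

lemma add_mem {w : ℂ} (hw : 0 < w.re) : 1 < (1 + w).re := by
  simp only [add_re, one_re]; linarith

lemma Hx_diff {K : ℝ} (hT : ∀ n : ℕ, 1 ≤ n → |TT a b κ n| ≤ K * (1 + Real.log n) ^ 2) :
    DifferentiableOn ℂ (Hx a b κ) {w | 0 < w.re} := by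
  have hab : LSeries.abscissaOfAbsConv (fun n => (TT a b κ n : ℂ)) ≤ (1 : ℝ) :=
    LSeries.abscissaOfAbsConv_le_of_forall_lt_LSeriesSummable' fun y hy =>
      TT_summ hT (y : ℂ) (by
        have : (1 : ℝ) < y := by exact_mod_cast hy
        simpa using this)
  have h1 : DifferentiableOn ℂ (LSeries (fun n => (TT a b κ n : ℂ))) {s | 1 < s.re} := by
    refine (LSeries_differentiableOn _).mono fun s (hs : 1 < s.re) => ?_
    show LSeries.abscissaOfAbsConv _ < (s.re : EReal)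
    refine lt_of_le_of_lt hab ?_
    exact_mod_cast hs
  have hadd : DifferentiableOn ℂ (fun w : ℂ => 1 + w) {w | 0 < w.re} := by fun_prop
  have hmaps : Set.MapsTo (fun w : ℂ => 1 + w) {w | 0 < w.re} {s | 1 < s.re} :=
    fun w hw => add_mem hw
  have h2 := EE_differentiable (C := 0) (m := fun k => PS 0 (cr a b κ) k / k)
    (K := 2 * (2 * (5 + 2 * |κ|))) (by positivity) AS_cr_le
  have h3 := EE_differentiable (C := 0) (m := cr a b κ) (K := 2 * (5 + 2 * |κ|)) (by positivity)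
    (fun n hn => PS_cr_le a b κ n hn)
  have d1 := h1.comp hadd hmaps
  have d2 := h2.comp hadd hmaps
  have d3 := h3.comp hadd hmaps
  unfold Hx
  refine ((DifferentiableOn.mul (by fun_prop) d1).sub (DifferentiableOn.mul (by fun_prop) d2)).sub d3

lemma Hx_eq {w : ℂ} (hw : 1 / 2 < w.re) : Hx a b κ w = LSeries (fun n => (cr a b κ n : ℂ)) w := by
  set s : ℂ := 1 + w with hs
  have hs1 : 3 / 2 < s.re := by rw [hs]; simp only [add_re, one_re]; linarith
  have hPS : ∀ n : ℕ, 1 ≤ n → |PS 0 (cr a b κ) n| ≤ 2 * (5 + 2 * |κ|) * (n : ℝ) ^ (1 / 2 : ℝ) :=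
    fun n hn => PS_cr_le a b κ n hn
  have hsum : LSeriesSummable (fun n => (cr a b κ n : ℂ)) w := by
    refine LSeriesSummable_of_le_const_mul_rpow (x := 1 / 2) hw ⟨5 + 2 * |κ|, fun n hn => ?_⟩
    rw [Complex.norm_real, Real.norm_eq_abs]
    refine (cr_le a b κ n (by omega)).trans (le_of_eq ?_)
    norm_num
  have hP : HasSum (fun n : ℕ => (cr a b κ (n + 1) : ℂ) * ((n + 1 : ℕ) : ℂ) ^ (1 - s))
      (LSeries (fun n => (cr a b κ n : ℂ)) w) := by
    have h3 : HasSum (LSeries.term (fun n => (cr a b κ n : ℂ)) w)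
      (LSeries (fun n => (cr a b κ n : ℂ)) w) := hsum.hasSum
    have h4 := (hasSum_nat_add_iff' (f := LSeries.term (fun n => (cr a b κ n : ℂ)) w) 1).2 h3
    simp only [sum_range_one, LSeries.term_zero, sub_zero] at h4
    have e : (fun n : ℕ => (cr a b κ (n + 1) : ℂ) * ((n + 1 : ℕ) : ℂ) ^ (1 - s)) =
        fun n => LSeries.term (fun n => (cr a b κ n : ℂ)) w (n + 1) := by
      funext n
      have e1 : (1 : ℂ) - s = -w := by rw [hs]; ring
      rw [LSeries.term_of_ne_zero (by omega : n + 1 ≠ 0), e1, Complex.cpow_neg, div_eq_mul_inv]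
    rw [e]
    exact h4
  have hab := abel_rel (C := 0) (m := cr a b κ) (by positivity : (0 : ℝ) ≤ 2 * (5 + 2 * |κ|)) hPS s hs1 _ hP
  have hP2 : HasSum (fun n : ℕ => ((PS 0 (cr a b κ) (n + 1) / ((n + 1 : ℕ) : ℝ) : ℝ) : ℂ) *
      ((n + 1 : ℕ) : ℂ) ^ (1 - s)) (LSeries (fun n => (PS 0 (cr a b κ) n : ℂ)) s) := by
    have h3 : HasSum (LSeries.term (fun n => (PS 0 (cr a b κ) n : ℂ)) s)
        (LSeries (fun n => (PS 0 (cr a b κ) n : ℂ)) s) := (PS_summable hPS s hs1).hasSum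
    have h4 := (hasSum_nat_add_iff' (f := LSeries.term (fun n => (PS 0 (cr a b κ) n : ℂ)) s) 1).2 h3
    simp only [sum_range_one, LSeries.term_zero, sub_zero] at h4
    have e : (fun n : ℕ => ((PS 0 (cr a b κ) (n + 1) / ((n + 1 : ℕ) : ℝ) : ℝ) : ℂ) *
        ((n + 1 : ℕ) : ℂ) ^ (1 - s)) =
        fun n => LSeries.term (fun n => (PS 0 (cr a b κ) n : ℂ)) s (n + 1) := by
      funext n
      have hn : ((n + 1 : ℕ) : ℂ) ≠ 0 := by exact_mod_cast (by omega : n + 1 ≠ 0)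
      have hns : ((n + 1 : ℕ) : ℂ) ^ s ≠ 0 := by
        rw [Complex.cpow_ne_zero_iff]; exact Or.inl hn
      rw [LSeries.term_of_ne_zero (by omega : n + 1 ≠ 0), sub_eq_add_neg 1 s,
        Complex.cpow_add _ _ hn, Complex.cpow_one, Complex.cpow_neg]
      push_cast at hn hns ⊢
      field_simp
    rw [e]
    exact h4
  have hab2 := abel_rel (C := 0) (m := fun k => PS 0 (cr a b κ) k / k)
    (by positivity : (0 : ℝ) ≤ 2 * (2 * (5 + 2 * |κ|))) AS_cr_le s hs1 _ hP2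
  have e1 : s - 1 = w := by rw [hs]; ring
  rw [e1] at hab hab2
  simp only [Complex.ofReal_zero, add_zero] at hab hab2
  have e2 : LSeries (fun n => (TT a b κ n : ℂ)) s =
      LSeries (fun n => (PS 0 (fun k => PS 0 (cr a b κ) k / k) n : ℂ)) s := rfl
  unfold Hx
  rw [← hs, e2]
  linear_combination w * hab2 + hab

/-- the logarithm of the continuation -/
noncomputable def Lx (a b : ℤ) (κ : ℝ) (w : ℂ) : ℂ := DDf a b w - Hx a b κ w - κ * ZZ w

lemma Lx_series {w : ℂ} (hw : 1 / 2 < w.re) :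
    HasSum (fun p : ℕ => LL (Good a b) (al a b) p (1 + w)) (Lx a b κ w) := by
  have hs : 3 / 2 < (1 + w).re := by simp only [add_re, one_re]; linarith
  have h1 : HasSum (fun p => dd (Good a b) (al a b) p (1 + w)) (DDf a b w) :=
    (dd_summable (good_prime a b) (good_norm a b) (s := 1 + w) (by simp; linarith)).hasSum
  have hsum : LSeriesSummable (fun n => (cr a b κ n : ℂ)) w := by
    refine LSeriesSummable_of_le_const_mul_rpow (x := 1 / 2) hw ⟨5 + 2 * |κ|, fun n hn => ?_⟩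
    rw [Complex.norm_real, Real.norm_eq_abs]
    refine (cr_le a b κ n (by omega)).trans (le_of_eq ?_)
    norm_num
  have h2 : HasSum (LSeries.term (fun n => (cr a b κ n : ℂ)) w) (Hx a b κ w) := by
    rw [Hx_eq hw]
    exact hsum.hasSum
  have h3 : HasSum (LSeries.term (fun n => (zz n : ℂ)) w) (ZZ w) :=
    (taskZ.2.1 w (by linarith)).hasSum
  have h4 := (h1.sub h2).sub (h3.mul_left (κ : ℂ))
  unfold Lx
  have e : (fun p : ℕ => LL (Good a b) (al a b) p (1 + w)) = fun n : ℕ =>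
      dd (Good a b) (al a b) n (1 + w) - LSeries.term (fun n => (cr a b κ n : ℂ)) w n -
        (κ : ℂ) * LSeries.term (fun n => (zz n : ℂ)) w n := by
    funext n
    rw [dd_eq (good_prime a b) (good_norm a b)]
    rcases Nat.eq_zero_or_pos n with h | h
    · subst h
      simp [ell_zero]
    · rw [LSeries.term_of_ne_zero (by omega), LSeries.term_of_ne_zero (by omega)]
      unfold cr
      have e : (1 : ℂ) - (1 + w) = -w := by ring
      rw [e, Complex.cpow_neg]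
      push_cast
      ring
  rw [e]
  exact h4

lemma Lx_diff {K : ℝ} (hT : ∀ n : ℕ, 1 ≤ n → |TT a b κ n| ≤ K * (1 + Real.log n) ^ 2) :
    DifferentiableOn ℂ (Lx a b κ) {w | 0 < w.re} :=
  ((DDf_diff a b).sub (Hx_diff hT)).sub (taskZ.1.const_mul _)

/-- `G` is the continuation of the Euler product to `Re s > 1`, without zeros -/
def IsG (a b : ℤ) (G : ℂ → ℂ) : Prop := DifferentiableOn ℂ G {s | 1 < s.re} ∧
  (∀ s : ℂ, 1 < s.re → G s ≠ 0) ∧
  ∀ s : ℂ, (3 : ℝ) / 2 < s.re → HasProd (fun p : ℕ => if Good a b p then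
    (1 - ((p : ℂ) - (Np a b p : ℂ)) * (p : ℂ) ^ (-s) + (p : ℂ) ^ (1 - 2 * s))⁻¹ else 1) (G s)

lemma isG {K : ℝ} (hT : ∀ n : ℕ, 1 ≤ n → |TT a b κ n| ≤ K * (1 + Real.log n) ^ 2) :
    IsG a b (fun s => exp (Lx a b κ (s - 1))) := by
  refine ⟨?_, fun s _ => Complex.exp_ne_zero _, fun s hs => ?_⟩
  · have h1 : DifferentiableOn ℂ (fun s : ℂ => s - 1) {s | 1 < s.re} := by fun_prop
    have h2 := (Lx_diff hT).comp h1 (fun s (hs : 1 < s.re) => by
      show 0 < (s - 1).re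
      simp only [sub_re, one_re]; linarith)
    exact h2.cexp
  · have h1 : 1 / 2 < (s - 1).re := by simp only [sub_re, one_re]; linarith
    have h2 := (Lx_series (a := a) (b := b) (κ := κ) h1).cexp
    have e0 : (1 : ℂ) + (s - 1) = s := by ring
    rw [e0] at h2
    convert h2 using 1
    funext p
    simp only [Function.comp_apply]
    unfold LL
    split_ifs with hp
    · have hpp := hp.1
      have hp2 : (2 : ℝ) ≤ p := by exact_mod_cast hpp.two_le
      have hne : ∀ β : ℂ, ‖β‖ = (p : ℝ) ^ (1 / 2 : ℝ) → 1 - β * (p : ℂ) ^ (-s) ≠ 0 := by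
        intro β hβ h0
        have h3 := norm_a hpp hβ s
        have h4 : ‖β * (p : ℂ) ^ (-s)‖ < 1 := by
          rw [h3]; exact lt_of_le_of_lt (x_rpow_le hp2 (by linarith)) (by norm_num)
        have h5 : β * (p : ℂ) ^ (-s) = 1 := (sub_eq_zero.1 h0).symm
        rw [h5, norm_one] at h4
        exact lt_irrefl _ h4
      rw [Complex.exp_add, Complex.exp_neg, Complex.exp_neg, Complex.exp_log (hne _ (al_norm hp)),
        Complex.exp_log (hne _ (norm_conj_alpha (good_prime a b) (good_norm a b) hp)), ← mul_inv,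
        factor_eq hp]
    · rw [Complex.exp_zero]

end

end Pool.Agent.H705R3.BSD
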