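import Pool.Agent.H705R3.BSD.Free

/-! Size of the continuation near `s = 1`. -/

set_option autoImplicit false
set_option maxHeartbeats 2000000

open Complex Filter Topology Finset MeasureTheory

namespace Pool.Agent.H705R3.BSD

open Pool.Agent.H438R3.BSD Pool.Agent.H814R3.BSD
open Classical

section

variable {a b : ℤ} {κ : ℝ}

lemma sq_of_hyp {ε K : ℝ} (hε : 0 ≤ ε) (hK : 0 ≤ K)
    (hT : ∀ n : ℕ, 1 ≤ n → |TT a b κ n| ≤
      (1 + Real.log n) * (ε * Real.log (1 + Real.log n) + K)) (n : ℕ) (hn : 1 ≤ n) :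
    |TT a b κ n| ≤ (ε + K) * (1 + Real.log n) ^ 2 := by
  refine (hT n hn).trans ?_
  have h0 := Real.log_natCast_nonneg n
  have h1 : Real.log (1 + Real.log n) ≤ 1 + Real.log n := by
    have := Real.log_le_sub_one_of_pos (by linarith : 0 < 1 + Real.log n)
    linarith
  have h2 : ε * Real.log (1 + Real.log n) ≤ ε * (1 + Real.log n) := mul_le_mul_of_nonneg_left h1 hε
  have h3 : K ≤ K * (1 + Real.log n) := by nlinarith
  have h4 : ε * Real.log (1 + Real.log n) + K ≤ (ε + K) * (1 + Real.log n) := by linarith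
  calc (1 + Real.log n) * (ε * Real.log (1 + Real.log n) + K)
      ≤ (1 + Real.log n) * ((ε + K) * (1 + Real.log n)) :=
        mul_le_mul_of_nonneg_left h4 (by linarith)
    _ = _ := by ring

lemma term_bound {ε K : ℝ} (hε : 0 ≤ ε) (hK : 0 ≤ K)
    (hT : ∀ n : ℕ, 1 ≤ n → |TT a b κ n| ≤
      (1 + Real.log n) * (ε * Real.log (1 + Real.log n) + K)) (σ : ℝ) (hσ : 0 < σ) (hσ1 : σ ≤ 1)
    (n : ℕ) (hn : 1 ≤ n) : |TT a b κ n| * (n : ℝ) ^ (-(1 + σ)) ≤
      (3 / σ * (ε * -Real.log σ + K) + 25 * ε / σ) * (n : ℝ) ^ (-(1 + σ / 2)) := by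
  have hn0 : (0 : ℝ) < n := by exact_mod_cast hn
  have h0 := Real.log_natCast_nonneg n
  set u := 1 + Real.log n with hu
  have hu1 : 1 ≤ u := by rw [hu]; linarith
  have hlσ : 0 ≤ -Real.log σ := by
    have := Real.log_nonpos hσ.le hσ1
    linarith
  have h1 : Real.log u ≤ -Real.log σ + σ * u := by
    have h2 := Real.log_le_sub_one_of_pos (by positivity : 0 < σ * u)
    rw [Real.log_mul hσ.ne' (by linarith)] at h2
    linarith
  have h2 : u ≤ 3 / σ * (n : ℝ) ^ (σ / 2) := by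
    refine (one_log_le n hn (σ / 2) (by positivity)).trans ?_
    refine mul_le_mul_of_nonneg_right ?_ (by positivity)
    have : 1 / (σ / 2) = 2 / σ := by field_simp
    rw [this]
    have h3 : 1 ≤ 1 / σ := by rw [le_div_iff₀ hσ]; linarith
    have h4 : 3 / σ = 1 / σ + 2 / σ := by ring
    linarith
  have h3 : u ≤ 5 / σ * (n : ℝ) ^ (σ / 4) := by
    refine (one_log_le n hn (σ / 4) (by positivity)).trans ?_
    refine mul_le_mul_of_nonneg_right ?_ (by positivity)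
    have : 1 / (σ / 4) = 4 / σ := by field_simp
    rw [this]
    have h3 : 1 ≤ 1 / σ := by rw [le_div_iff₀ hσ]; linarith
    have h4 : 5 / σ = 1 / σ + 4 / σ := by ring
    linarith
  have h4 : u ^ 2 ≤ 25 / σ ^ 2 * (n : ℝ) ^ (σ / 2) := by
    have h5 := pow_le_pow_left₀ (by linarith : 0 ≤ u) h3 2
    refine h5.trans (le_of_eq ?_)
    have e : ((n : ℝ) ^ (σ / 4)) ^ 2 = (n : ℝ) ^ (σ / 2) := by
      rw [← Real.rpow_natCast, ← Real.rpow_mul hn0.le]
      congr 1
      push_cast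
      ring
    rw [mul_pow, e, div_pow]
    norm_num
  have h5 : u * (ε * Real.log u + K) ≤
      (3 / σ * (ε * -Real.log σ + K) + 25 * ε / σ) * (n : ℝ) ^ (σ / 2) := by
    have h6 : ε * Real.log u ≤ ε * (-Real.log σ + σ * u) := mul_le_mul_of_nonneg_left h1 hε
    have h7 : u * (ε * Real.log u + K) ≤ u * (ε * -Real.log σ + K) + ε * σ * u ^ 2 := by
      nlinarith
    have h8 : 0 ≤ ε * -Real.log σ + K := by positivity
    have h9 : u * (ε * -Real.log σ + K) ≤ 3 / σ * (n : ℝ) ^ (σ / 2) * (ε * -Real.log σ + K) :=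
      mul_le_mul_of_nonneg_right h2 h8
    have h10 : ε * σ * u ^ 2 ≤ ε * σ * (25 / σ ^ 2 * (n : ℝ) ^ (σ / 2)) :=
      mul_le_mul_of_nonneg_left h4 (by positivity)
    have h11 : ε * σ * (25 / σ ^ 2 * (n : ℝ) ^ (σ / 2)) = 25 * ε / σ * (n : ℝ) ^ (σ / 2) := by
      field_simp
    calc _ ≤ _ := h7
      _ ≤ 3 / σ * (n : ℝ) ^ (σ / 2) * (ε * -Real.log σ + K) + 25 * ε / σ * (n : ℝ) ^ (σ / 2) := by
        rw [← h11]; exact add_le_add h9 h10
      _ = _ := by ring
  calc |TT a b κ n| * (n : ℝ) ^ (-(1 + σ)) ≤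
      ((3 / σ * (ε * -Real.log σ + K) + 25 * ε / σ) * (n : ℝ) ^ (σ / 2)) * (n : ℝ) ^ (-(1 + σ)) :=
        mul_le_mul_of_nonneg_right ((hT n hn).trans h5) (by positivity)
    _ = (3 / σ * (ε * -Real.log σ + K) + 25 * ε / σ) * ((n : ℝ) ^ (σ / 2) * (n : ℝ) ^ (-(1 + σ))) := by
        ring
    _ = _ := by
        rw [← Real.rpow_add hn0]
        congr 2
        ring

lemma LS_bound {ε K : ℝ} (hε : 0 ≤ ε) (hK : 0 ≤ K)
    (hT : ∀ n : ℕ, 1 ≤ n → |TT a b κ n| ≤
      (1 + Real.log n) * (ε * Real.log (1 + Real.log n) + K)) (w : ℂ) (hσ : 0 < w.re)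
    (hσ1 : w.re ≤ 1) : ‖LSeries (fun n => (TT a b κ n : ℂ)) (1 + w)‖ ≤
      (9 * (ε * -Real.log w.re + K) + 75 * ε) / w.re ^ 2 := by
  set σ := w.re with hσdef
  have hlσ : 0 ≤ -Real.log σ := by
    have := Real.log_nonpos hσ.le hσ1
    linarith
  obtain ⟨hs, hle⟩ := zeta_le (σ / 2) (by positivity)
  set M := 3 / σ * (ε * -Real.log σ + K) + 25 * ε / σ with hM
  have hM0 : 0 ≤ M := by positivity
  have h1 : ‖LSeries (fun n => (TT a b κ n : ℂ)) (1 + w)‖ ≤
      ∑' n : ℕ, M * (n : ℝ) ^ (-(1 + σ / 2)) := by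
    refine tsum_of_norm_bounded (hs.mul_left M).hasSum (fun n => ?_)
    rcases Nat.eq_zero_or_pos n with h | h
    · subst h
      rw [LSeries.term_zero, norm_zero]
      positivity
    · have h2 := term_bound hε hK hT σ hσ hσ1 n h
      refine le_trans (le_of_eq ?_) h2
      have hn0 : (0 : ℝ) < n := by exact_mod_cast h
      rw [LSeries.term_of_ne_zero (by omega), norm_div, Complex.norm_real, Real.norm_eq_abs,
        Complex.norm_natCast_cpow_of_pos h, Real.rpow_neg hn0.le, div_eq_mul_inv]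
      simp [hσdef]
  refine h1.trans ?_
  rw [tsum_mul_left]
  have h3 : ∑' n : ℕ, (n : ℝ) ^ (-(1 + σ / 2)) ≤ 3 / σ := by
    refine hle.trans ?_
    have : 1 / (σ / 2) = 2 / σ := by field_simp
    rw [this]
    have h3 : 1 ≤ 1 / σ := by rw [le_div_iff₀ hσ]; linarith
    have h4 : 3 / σ = 1 / σ + 2 / σ := by ring
    linarith
  refine (mul_le_mul_of_nonneg_left h3 hM0).trans (le_of_eq ?_)
  rw [hM]
  field_simp
  ring

lemma Lx_bound (a b : ℤ) (κ : ℝ) : ∃ K1 : ℝ, ∀ (ε K : ℝ), 0 ≤ ε → 0 ≤ K →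
    (∀ n : ℕ, 1 ≤ n → |TT a b κ n| ≤
      (1 + Real.log n) * (ε * Real.log (1 + Real.log n) + K)) → ∀ w : ℂ, 0 < w.re → ‖w‖ ≤ 1 →
    |(Lx a b κ w).re - κ * Real.log ‖w‖| ≤
      (9 * (ε * -Real.log w.re + K) + 75 * ε + K1) * (‖w‖ / w.re) ^ 2 := by
  obtain ⟨c, -, -, Cz, hCz⟩ := TZ0.Z0_ok
  obtain ⟨C1, hC1⟩ := TDD.dd_ok a b
  have hK32 : 0 ≤ K32 := tsum_nonneg fun n => by positivity
  set Kc := 2 * (5 + 2 * |κ|) with hKc
  have hKc0 : 0 ≤ Kc := by positivity
  refine ⟨2 * |C1| + 2 * (2 * Kc) * K32 + 2 * Kc * K32 + |κ| * |Cz|, ?_⟩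
  intro ε K hε hK hT w hw hw1
  have hσ1 : w.re ≤ 1 := (Complex.re_le_norm w).trans hw1
  have hd1 := hC1 w hw hσ1
  have hz1 := hCz w hw hw1
  have hLS := LS_bound hε hK hT w hw hσ1
  have hq1 : 1 ≤ ‖w‖ / w.re := by
    rw [le_div_iff₀ hw, one_mul]; exact Complex.re_le_norm w
  set q := ‖w‖ / w.re with hq
  have hq2 : 1 ≤ q ^ 2 := by nlinarith
  have hre : 1 ≤ (1 + w).re := by simp only [add_re, one_re]; linarith
  have e1 : (1 : ℂ) + w - 1 = w := by ring
  have h1w : ‖1 + w‖ ≤ 2 := by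
    refine (norm_add_le _ _).trans ?_
    rw [norm_one]; linarith
  have hww : ‖w‖ * ‖1 + w‖ ≤ 2 := by
    have := mul_le_mul hw1 h1w (norm_nonneg _) (by norm_num)
    linarith
  have hE1 : ‖EE 0 (cr a b κ) (1 + w)‖ ≤ 2 * Kc * K32 := by
    have h := (EE_bound (C := 0) (m := cr a b κ) hKc0 (fun n hn => PS_cr_le a b κ n hn) (1 + w) hre).2
    rw [e1] at h
    refine h.trans ?_
    have := mul_le_mul_of_nonneg_right hww (mul_nonneg hKc0 hK32)
    calc ‖w‖ * ‖1 + w‖ * Kc * K32 = ‖w‖ * ‖1 + w‖ * (Kc * K32) := by ring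
      _ ≤ 2 * (Kc * K32) := this
      _ = _ := by ring
  have hE2 : ‖EE 0 (fun k => PS 0 (cr a b κ) k / k) (1 + w)‖ ≤ 2 * (2 * Kc) * K32 := by
    have h := (EE_bound (C := 0) (m := fun k => PS 0 (cr a b κ) k / k)
      (by positivity : (0 : ℝ) ≤ 2 * Kc) AS_cr_le (1 + w) hre).2
    rw [e1] at h
    refine h.trans ?_
    have := mul_le_mul_of_nonneg_right hww (mul_nonneg (by positivity : (0 : ℝ) ≤ 2 * Kc) hK32)
    calc ‖w‖ * ‖1 + w‖ * (2 * Kc) * K32 = ‖w‖ * ‖1 + w‖ * ((2 * Kc) * K32) := by ring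
      _ ≤ 2 * ((2 * Kc) * K32) := this
      _ = _ := by ring
  set B := 9 * (ε * -Real.log w.re + K) + 75 * ε with hB
  have hB0 : 0 ≤ B := by
    have : 0 ≤ -Real.log w.re := by
      have := Real.log_nonpos hw.le hσ1
      linarith
    positivity
  have hH : ‖Hx a b κ w‖ ≤ B * q ^ 2 + 2 * (2 * Kc) * K32 + 2 * Kc * K32 := by
    unfold Hx
    refine (norm_sub_le _ _).trans (add_le_add ((norm_sub_le _ _).trans (add_le_add ?_ ?_)) hE1)
    · rw [norm_mul, norm_pow]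
      refine (mul_le_mul_of_nonneg_left hLS (by positivity)).trans (le_of_eq ?_)
      rw [hq]
      field_simp
    · rw [norm_mul]
      calc ‖w‖ * ‖EE 0 (fun k => PS 0 (cr a b κ) k / k) (1 + w)‖ ≤ 1 * (2 * (2 * Kc) * K32) :=
            mul_le_mul hw1 hE2 (norm_nonneg _) (by norm_num)
        _ = _ := one_mul _
  have hD : |(DDf a b w).re| ≤ 2 * |C1| * q ^ 2 := by
    refine (Complex.abs_re_le_norm _).trans (hd1.trans ?_)
    have hl0 : 0 ≤ Real.log (1 + q) := Real.log_nonneg (by linarith)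
    have hl1 : Real.log (1 + q) ≤ q := by
      have := Real.log_le_sub_one_of_pos (by linarith : 0 < 1 + q)
      linarith
    calc C1 * (1 + Real.log (1 + q)) ≤ |C1| * (1 + Real.log (1 + q)) :=
          mul_le_mul_of_nonneg_right (le_abs_self _) (by linarith)
      _ ≤ |C1| * (2 * q ^ 2) := mul_le_mul_of_nonneg_left (by nlinarith) (abs_nonneg _)
      _ = _ := by ring
  have hZ : |κ * ((ZZ w).re + Real.log ‖w‖)| ≤ |κ| * |Cz| := by
    rw [abs_mul]
    exact mul_le_mul_of_nonneg_left (hz1.trans (le_abs_self _)) (abs_nonneg _)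
  have e2 : (Lx a b κ w).re - κ * Real.log ‖w‖ = (DDf a b w).re - (Hx a b κ w).re -
      κ * ((ZZ w).re + Real.log ‖w‖) := by
    unfold Lx
    simp only [sub_re, Complex.re_ofReal_mul]
    ring
  rw [e2]
  have hHr : |(Hx a b κ w).re| ≤ B * q ^ 2 + 2 * (2 * Kc) * K32 + 2 * Kc * K32 :=
    (Complex.abs_re_le_norm _).trans hH
  have hc1 : 0 ≤ 2 * (2 * Kc) * K32 := by positivity
  have hc2 : 0 ≤ 2 * Kc * K32 := by positivity
  have hc3 : 0 ≤ |κ| * |Cz| := by positivity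
  calc |(DDf a b w).re - (Hx a b κ w).re - κ * ((ZZ w).re + Real.log ‖w‖)|
      ≤ |(DDf a b w).re| + |(Hx a b κ w).re| + |κ * ((ZZ w).re + Real.log ‖w‖)| := by
        refine (abs_sub _ _).trans ?_
        exact add_le_add_left (abs_sub _ _) _
    _ ≤ 2 * |C1| * q ^ 2 + (B * q ^ 2 + 2 * (2 * Kc) * K32 + 2 * Kc * K32) + |κ| * |Cz| := by
        linarith
    _ ≤ 2 * |C1| * q ^ 2 + (B * q ^ 2 + 2 * (2 * Kc) * K32 * q ^ 2 + 2 * Kc * K32 * q ^ 2) +
        |κ| * |Cz| * q ^ 2 := by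
        nlinarith
    _ = _ := by ring

/-- the second partial sums, from bounded averages -/
lemma TT_of_LA (C : ℝ) (h : ∀ x : ℕ, |LA a b κ x| ≤ C) : ∃ K : ℝ, 0 ≤ K ∧
    ∀ n : ℕ, 1 ≤ n → |TT a b κ n| ≤ (1 + Real.log n) * (0 * Real.log (1 + Real.log n) + K) := by
  obtain ⟨c0, hc0, hz⟩ := zz_diff
  have hC : 0 ≤ C := (abs_nonneg _).trans (h 0)
  refine ⟨C + |κ| * c0, by positivity, fun n hn => ?_⟩
  have h0 := Real.log_natCast_nonneg n
  have h1 : (∑ k ∈ Finset.Icc 2 n, (Real.log (EP a b k) - κ * Real.log (Real.log k)) / k) =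
      LA a b κ n * Real.log n := by
    rcases Nat.lt_or_ge n 2 with h2 | h2
    · have : Finset.Icc 2 n = ∅ := Finset.Icc_eq_empty (by omega)
      have h3 : n = 1 := by omega
      subst h3
      simp
    · have hnr : (2 : ℝ) ≤ n := by exact_mod_cast h2
      have hpos : 0 < Real.log n := Real.log_pos (by linarith)
      unfold LA
      rw [div_mul_cancel₀ _ hpos.ne']
  unfold TT
  rw [AS_cr', h1]
  calc |LA a b κ n * Real.log n - κ * ∑ k ∈ Finset.Icc 2 n,
        ((∑ j ∈ Finset.Icc 1 k, zz j) - Real.log (Real.log k)) / k|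
      ≤ |LA a b κ n * Real.log n| + |κ * ∑ k ∈ Finset.Icc 2 n,
        ((∑ j ∈ Finset.Icc 1 k, zz j) - Real.log (Real.log k)) / k| := abs_sub _ _
    _ ≤ C * Real.log n + |κ| * (c0 * (1 + Real.log n)) := by
        rw [abs_mul, abs_mul, abs_of_nonneg h0]
        exact add_le_add (mul_le_mul_of_nonneg_right (h n) h0)
          (mul_le_mul_of_nonneg_left (hz n) (abs_nonneg _))
    _ ≤ _ := by nlinarith

lemma DL_le (n : ℕ) (_hn : 1 ≤ n) : DL n ≤ (1 + Real.log n) * Real.log (1 + Real.log n) := by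
  have h0 := Real.log_natCast_nonneg n
  have hl : 0 ≤ Real.log (1 + Real.log n) := Real.log_nonneg (by linarith)
  unfold DL
  calc ∑ k ∈ Finset.Icc 2 n, Real.log (Real.log k) / k
      ≤ ∑ k ∈ Finset.Icc 2 n, Real.log (1 + Real.log n) * (1 / (k : ℝ)) := by
        refine Finset.sum_le_sum fun k hk => ?_
        have hk2 := (Finset.mem_Icc.1 hk).1
        have hkn := (Finset.mem_Icc.1 hk).2
        have hkr : (2 : ℝ) ≤ k := by exact_mod_cast hk2
        have hkl : 0 < Real.log k := Real.log_pos (by linarith)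
        rw [mul_one_div]
        refine div_le_div_of_nonneg_right ?_ (by positivity)
        refine Real.log_le_log hkl ?_
        have : Real.log k ≤ Real.log n := Real.log_le_log (by linarith) (by exact_mod_cast hkn)
        linarith
    _ = Real.log (1 + Real.log n) * ∑ k ∈ Finset.Icc 2 n, (1 : ℝ) / k := by rw [Finset.mul_sum]
    _ ≤ Real.log (1 + Real.log n) * (1 + Real.log n) := mul_le_mul_of_nonneg_left (harm_le n) hl
    _ = _ := mul_comm _ _

/-- the second partial sums, from the limit of the quotient -/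
lemma TT_of_MR (h : Tendsto (MR a b) atTop (𝓝 κ)) (ε : ℝ) (hε : 0 < ε) : ∃ K : ℝ, 0 ≤ K ∧
    ∀ n : ℕ, 1 ≤ n → |TT a b κ n| ≤ (1 + Real.log n) * (ε * Real.log (1 + Real.log n) + K) := by
  obtain ⟨c0, hc0, hz⟩ := zz_diff
  have h1 : ∀ᶠ n : ℕ in atTop, |MR a b n - κ| ≤ ε := by
    have := (Metric.tendsto_nhds.1 h) ε hε
    filter_upwards [this] with n hn
    rw [Real.dist_eq] at hn
    exact hn.le
  obtain ⟨N, hN⟩ := eventually_atTop.1 (h1.and ev_pos)
  set S : ℕ → ℝ := fun n => ∑ k ∈ Finset.Icc 2 n,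
    (Real.log (EP a b k) - κ * Real.log (Real.log k)) / k with hS
  set M := ∑ k ∈ Finset.range N, |S k| with hM
  have hM0 : 0 ≤ M := Finset.sum_nonneg fun k _ => abs_nonneg _
  refine ⟨M + |κ| * c0, by positivity, fun n hn => ?_⟩
  have h0 := Real.log_natCast_nonneg n
  have hl : 0 ≤ Real.log (1 + Real.log n) := Real.log_nonneg (by linarith)
  have hSn : |S n| ≤ (1 + Real.log n) * (ε * Real.log (1 + Real.log n) + M) := by
    by_cases hc : N ≤ n
    · obtain ⟨h2, h3, h4, h5⟩ := hN n hc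
      have h6 : S n = (MR a b n - κ) * DL n := by
        have e1 : S n = (∑ k ∈ Finset.Icc 2 n, Real.log (EP a b k) / k) - κ * DL n := by
          rw [hS]
          unfold DL
          rw [Finset.mul_sum, ← Finset.sum_sub_distrib]
          refine Finset.sum_congr rfl fun k _ => ?_
          ring
        have e2 : MR a b n = (∑ k ∈ Finset.Icc 2 n, Real.log (EP a b k) / k) / DL n := rfl
        rw [e1, e2, sub_mul, div_mul_cancel₀ _ h5.ne']
      rw [h6, abs_mul, abs_of_pos h5]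
      calc |MR a b n - κ| * DL n ≤ ε * ((1 + Real.log n) * Real.log (1 + Real.log n)) :=
            mul_le_mul h2 (DL_le n hn) h5.le hε.le
        _ ≤ _ := by nlinarith [mul_nonneg h0 hM0]
    · push Not at hc
      have h2 : |S n| ≤ M := Finset.single_le_sum (f := fun k => |S k|)
        (fun k _ => abs_nonneg _) (Finset.mem_range.2 hc)
      have h3 : 0 ≤ ε * Real.log (1 + Real.log n) := by positivity
      nlinarith [mul_nonneg h0 hM0, mul_nonneg h0 h3]
  unfold TT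
  rw [AS_cr']
  calc |(∑ k ∈ Finset.Icc 2 n, (Real.log (EP a b k) - κ * Real.log (Real.log k)) / k) -
        κ * ∑ k ∈ Finset.Icc 2 n, ((∑ j ∈ Finset.Icc 1 k, zz j) - Real.log (Real.log k)) / k|
      ≤ |S n| + |κ * ∑ k ∈ Finset.Icc 2 n,
        ((∑ j ∈ Finset.Icc 1 k, zz j) - Real.log (Real.log k)) / k| := abs_sub _ _
    _ ≤ (1 + Real.log n) * (ε * Real.log (1 + Real.log n) + M) +
        |κ| * (c0 * (1 + Real.log n)) := by
        rw [abs_mul]
        exact add_le_add hSn (mul_le_mul_of_nonneg_left (hz n) (abs_nonneg _))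
    _ = _ := by ring

end

/-- Bounded averages: continuation without zeros, and its size near `1`. -/
theorem free_LA (a b : ℤ) (κ : ℝ) (h : ∃ C : ℝ, ∀ x : ℕ, |LA a b κ x| ≤ C) :
    ∃ G : ℂ → ℂ, IsG a b G ∧ ∃ C : ℝ, ∀ s : ℂ, 1 < s.re → ‖s - 1‖ ≤ 1 →
      |Real.log ‖G s‖ - κ * Real.log ‖s - 1‖| ≤ C * (‖s - 1‖ / (s.re - 1)) ^ 2 := by
  obtain ⟨C, hC⟩ := h
  obtain ⟨K, hK, hT⟩ := TT_of_LA C hC
  obtain ⟨K1, hb⟩ := Lx_bound a b κ
  refine ⟨_, isG (sq_of_hyp le_rfl hK hT), 9 * K + K1, fun s hs hs1 => ?_⟩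
  have hre : (s - 1).re = s.re - 1 := by simp
  have h1 := hb 0 K le_rfl hK hT (s - 1) (by rw [hre]; linarith) hs1
  rw [Complex.norm_exp, Real.log_exp]
  rw [hre] at h1
  refine h1.trans (le_of_eq ?_)
  ring

/-- The limit of the quotient: continuation without zeros, and its size near `1`. -/
theorem free_MR (a b : ℤ) (κ : ℝ) (h : Tendsto (MR a b) atTop (𝓝 κ)) :
    ∃ G : ℂ → ℂ, IsG a b G ∧
      Tendsto (fun σ : ℝ => Real.log ‖G (1 + σ)‖ / Real.log σ) (𝓝[>] 0) (𝓝 κ) := by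
  obtain ⟨K, hK, hT⟩ := TT_of_MR h 1 one_pos
  obtain ⟨K1, hb⟩ := Lx_bound a b κ
  refine ⟨_, isG (sq_of_hyp zero_le_one hK hT), ?_⟩
  rw [Metric.tendsto_nhds]
  intro η hη
  obtain ⟨K2, hK2, hT2⟩ := TT_of_MR h (η / 18) (by positivity)
  have hbot : Tendsto (fun w : ℝ => Real.log w) (𝓝[>] 0) atBot := Real.tendsto_log_nhdsGT_zero
  have hw1 : ∀ᶠ w : ℝ in 𝓝[>] 0, w ≤ 1 := by
    have : Set.Iic (1 : ℝ) ∈ 𝓝 (0 : ℝ) := Iic_mem_nhds one_pos
    exact mem_nhdsWithin_of_mem_nhds this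
  filter_upwards [hbot.eventually (eventually_lt_atBot (-((9 * K2 + 75 * (η / 18) + K1 + 1) / (η / 2)))),
    hbot.eventually (eventually_lt_atBot (-1)), hw1, self_mem_nhdsWithin] with σ h1 h2 h3 h4
  have hσ : (0 : ℝ) < σ := h4
  have e1 : ((1 : ℂ) + σ - 1) = (σ : ℂ) := by ring
  have hn : ‖(σ : ℂ)‖ = σ := by rw [Complex.norm_real, Real.norm_eq_abs, abs_of_pos hσ]
  have h5 := hb (η / 18) K2 (by positivity) hK2 hT2 (σ : ℂ) (by simpa using hσ) (by rw [hn]; exact h3)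
  rw [hn, Complex.ofReal_re, div_self hσ.ne', one_pow, mul_one] at h5
  rw [Real.dist_eq, e1, Complex.norm_exp, Real.log_exp]
  have hl : Real.log σ < 0 := by linarith
  have e2 : (Lx a b κ σ).re / Real.log σ - κ = ((Lx a b κ σ).re - κ * Real.log σ) / Real.log σ := by
    rw [sub_div, mul_div_assoc, div_self hl.ne, mul_one]
  rw [e2, abs_div, abs_of_neg hl, div_lt_iff₀ (by linarith)]
  refine lt_of_le_of_lt h5 ?_
  have h6 : 9 * K2 + 75 * (η / 18) + K1 + 1 < (η / 2) * -Real.log σ := by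
    have h7 : (9 * K2 + 75 * (η / 18) + K1 + 1) / (η / 2) < -Real.log σ := by linarith
    rw [div_lt_iff₀ (by positivity)] at h7
    linarith
  nlinarith

end Pool.Agent.H705R3.BSD
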