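import Pool.Agent.H705R3.BSD.Free2
import Pool.Agent.H438R3.BSD.Hyp

/-! Averages of partial Euler products at the centre give the continuation without zeros: general
local data of weight one. -/

set_option autoImplicit false
set_option maxHeartbeats 2000000

open Complex Filter Topology Finset MeasureTheory

namespace Pool.Agent.H705R3.BSDG

open Pool.Agent.H438R3.BSD Pool.Agent.H814R3.BSD Pool.Agent.H705R3.BSD
open Pool.Agent.H438R3.BSD.Gen (Loc lE)

/-- the quotient of the sums of `f n / n` and of `log log n / n` over `2 ≤ n ≤ x` -/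
noncomputable def MR (f : ℕ → ℝ) (x : ℕ) : ℝ :=
  (∑ n ∈ Finset.Icc 2 x, f n / n) / ∑ n ∈ Finset.Icc 2 x, Real.log (Real.log n) / n

section

variable {LL : ℕ → ℂ → ℂ} {ell : ℕ → ℝ} {A : ℝ}

/-- the coefficients -/
noncomputable def cr (ell : ℕ → ℝ) (κ : ℝ) (n : ℕ) : ℝ := ell n - κ * zz n

lemma cr_le (h : Loc LL ell A) (κ : ℝ) (n : ℕ) (hn : 1 ≤ n) :
    |cr ell κ n| ≤ (A + 2 * |κ|) * (n : ℝ) ^ (-(1 / 2) : ℝ) := by
  unfold cr
  have h1 := h.ell_le n hn
  have h2 := Pool.Agent.H814R3.BSD.zz_le n hn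
  have h3 := Pool.Agent.H814R3.BSD.zz_nonneg n
  have h4 : |κ * zz n| ≤ |κ| * (2 * (n : ℝ) ^ (-(1 / 2) : ℝ)) := by
    rw [abs_mul, abs_of_nonneg h3]
    exact mul_le_mul_of_nonneg_left h2 (by positivity)
  calc |ell n - κ * zz n| ≤ |ell n| + |κ * zz n| := abs_sub _ _
    _ ≤ _ := by linarith

lemma PS_cr_le (h : Loc LL ell A) (κ : ℝ) (n : ℕ) (_hn : 1 ≤ n) :
    |PS 0 (cr ell κ) n| ≤ 2 * (A + 2 * |κ|) * (n : ℝ) ^ (1 / 2 : ℝ) := by
  have := h.pos
  unfold PS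
  rw [zero_add]
  calc |∑ k ∈ Icc 1 n, cr ell κ k| ≤ ∑ k ∈ Icc 1 n, |cr ell κ k| := Finset.abs_sum_le_sum_abs _ _
    _ ≤ ∑ k ∈ Icc 1 n, (A + 2 * |κ|) * (k : ℝ) ^ (-(1 / 2) : ℝ) :=
        Finset.sum_le_sum fun k hk => cr_le h κ k (mem_Icc.1 hk).1
    _ = (A + 2 * |κ|) * ∑ k ∈ Icc 1 n, (k : ℝ) ^ (-(1 / 2) : ℝ) := by rw [Finset.mul_sum]
    _ ≤ (A + 2 * |κ|) * (2 * (n : ℝ) ^ (1 / 2 : ℝ)) :=
        mul_le_mul_of_nonneg_left (sum_rpow_half n) (by positivity)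
    _ = _ := by ring

lemma sum_cr (ell : ℕ → ℝ) (κ : ℝ) (j : ℕ) : ∑ k ∈ Finset.Icc 1 j, cr ell κ k =
    lE ell j - κ * ∑ k ∈ Finset.Icc 1 j, zz k := by
  unfold cr lE
  rw [Finset.sum_sub_distrib, ← Finset.mul_sum]

/-- the second partial sums -/
noncomputable def TT (ell : ℕ → ℝ) (κ : ℝ) (n : ℕ) : ℝ := AS 0 (cr ell κ) n

lemma TT_eq (h : Loc LL ell A) (κ : ℝ) (n : ℕ) : TT ell κ n = (∑ k ∈ Finset.Icc 2 n,
    (lE ell k - κ * Real.log (Real.log k)) / k) -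
    κ * ∑ k ∈ Finset.Icc 2 n, ((∑ j ∈ Finset.Icc 1 k, zz j) - Real.log (Real.log k)) / k := by
  have h0 : TT ell κ n = ∑ k ∈ Finset.Icc 2 n,
      (lE ell k - κ * ∑ j ∈ Finset.Icc 1 k, zz j) / k := by
    unfold TT AS
    rw [PS, zero_add]
    rcases Nat.eq_zero_or_pos n with hn | hn
    · subst hn; simp
    · rw [Icc_split hn, Finset.sum_insert (by simp)]
      have h1 : PS 0 (cr ell κ) 1 = 0 := by
        unfold PS
        simp [cr, h.zeroE 1 Nat.not_prime_one, zz]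
      rw [h1, zero_div, zero_add]
      refine Finset.sum_congr rfl fun k _ => ?_
      unfold PS
      rw [zero_add, sum_cr]
  rw [h0, Finset.mul_sum, ← Finset.sum_sub_distrib]
  refine Finset.sum_congr rfl fun k _ => ?_
  ring

lemma TT_summ {κ K : ℝ} (hT : ∀ n : ℕ, 1 ≤ n → |TT ell κ n| ≤ K * (1 + Real.log n) ^ 2)
    (s : ℂ) (hs : 1 < s.re) : LSeriesSummable (fun n => (TT ell κ n : ℂ)) s := by
  have hK : 0 ≤ K := by
    have := (abs_nonneg _).trans (hT 1 le_rfl)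
    simpa using this
  set δ : ℝ := (s.re - 1) / 4 with hδ
  have hδ0 : 0 < δ := by rw [hδ]; linarith
  refine LSeriesSummable_of_le_const_mul_rpow (x := 1 + 2 * δ) (by rw [hδ]; linarith)
    ⟨K * (1 + 1 / δ) ^ 2, fun n hn => ?_⟩
  have hn1 : 1 ≤ n := by omega
  have hn0 : (0 : ℝ) < n := by exact_mod_cast hn1
  rw [Complex.norm_real, Real.norm_eq_abs]
  refine (hT n hn1).trans ?_
  have h1 := one_log_le n hn1 δ hδ0
  have h2 : 0 ≤ 1 + Real.log n := by have := Real.log_natCast_nonneg n; linarith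
  have e : (n : ℝ) ^ (1 + 2 * δ - 1) = ((n : ℝ) ^ δ) ^ 2 := by
    rw [← Real.rpow_natCast, ← Real.rpow_mul hn0.le]
    congr 1
    push_cast
    ring
  rw [e, mul_assoc, ← mul_pow]
  exact mul_le_mul_of_nonneg_left (pow_le_pow_left₀ h2 h1 2) hK

/-- the continuation of the Dirichlet series of `cr` -/
noncomputable def Hx (ell : ℕ → ℝ) (κ : ℝ) (w : ℂ) : ℂ :=
  w ^ 2 * LSeries (fun n => (TT ell κ n : ℂ)) (1 + w) -
    w * EE 0 (fun k => PS 0 (cr ell κ) k / k) (1 + w) - EE 0 (cr ell κ) (1 + w)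

lemma AS_cr_le (h : Loc LL ell A) (κ : ℝ) (n : ℕ) (_hn : 1 ≤ n) :
    |PS 0 (fun k => PS 0 (cr ell κ) k / k) n| ≤
      2 * (2 * (A + 2 * |κ|)) * (n : ℝ) ^ (1 / 2 : ℝ) := by
  have := h.pos
  exact AS_le (C := 0) (m := cr ell κ) (K := 2 * (A + 2 * |κ|)) (by positivity)
    (fun k hk => PS_cr_le h κ k hk) n

lemma Hx_diff (h : Loc LL ell A) {κ K : ℝ} (hT : ∀ n : ℕ, 1 ≤ n → |TT ell κ n| ≤ K * (1 + Real.log n) ^ 2) :
    DifferentiableOn ℂ (Hx ell κ) {w | 0 < w.re} := by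
  have hApos := h.pos
  have hab : LSeries.abscissaOfAbsConv (fun n => (TT ell κ n : ℂ)) ≤ (1 : ℝ) :=
    LSeries.abscissaOfAbsConv_le_of_forall_lt_LSeriesSummable' fun y hy =>
      TT_summ hT (y : ℂ) (by
        have : (1 : ℝ) < y := by exact_mod_cast hy
        simpa using this)
  have h1 : DifferentiableOn ℂ (LSeries (fun n => (TT ell κ n : ℂ))) {s | 1 < s.re} := by
    refine (LSeries_differentiableOn _).mono fun s (hs : 1 < s.re) => ?_
    show LSeries.abscissaOfAbsConv _ < (s.re : EReal)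
    refine lt_of_le_of_lt hab ?_
    exact_mod_cast hs
  have hadd : DifferentiableOn ℂ (fun w : ℂ => 1 + w) {w | 0 < w.re} := by fun_prop
  have hmaps : Set.MapsTo (fun w : ℂ => 1 + w) {w | 0 < w.re} {s | 1 < s.re} :=
    fun w hw => add_mem hw
  have h2 := EE_differentiable (C := 0) (m := fun k => PS 0 (cr ell κ) k / k)
    (K := 2 * (2 * (A + 2 * |κ|))) (by positivity) (AS_cr_le h κ)
  have h3 := EE_differentiable (C := 0) (m := cr ell κ) (K := 2 * (A + 2 * |κ|)) (by positivity)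
    (fun n hn => PS_cr_le h κ n hn)
  have d1 := h1.comp hadd hmaps
  have d2 := h2.comp hadd hmaps
  have d3 := h3.comp hadd hmaps
  unfold Hx
  refine ((DifferentiableOn.mul (by fun_prop) d1).sub (DifferentiableOn.mul (by fun_prop) d2)).sub d3

lemma Hx_eq (h : Loc LL ell A) {κ : ℝ} {w : ℂ} (hw : 1 / 2 < w.re) : Hx ell κ w = LSeries (fun n => (cr ell κ n : ℂ)) w := by
  have hApos := h.pos
  set s : ℂ := 1 + w with hs
  have hs1 : 3 / 2 < s.re := by rw [hs]; simp only [add_re, one_re]; linarith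
  have hPS : ∀ n : ℕ, 1 ≤ n → |PS 0 (cr ell κ) n| ≤ 2 * (A + 2 * |κ|) * (n : ℝ) ^ (1 / 2 : ℝ) :=
    fun n hn => PS_cr_le h κ n hn
  have hsum : LSeriesSummable (fun n => (cr ell κ n : ℂ)) w := by
    refine LSeriesSummable_of_le_const_mul_rpow (x := 1 / 2) hw ⟨A + 2 * |κ|, fun n hn => ?_⟩
    rw [Complex.norm_real, Real.norm_eq_abs]
    refine (cr_le h κ n (by omega)).trans (le_of_eq ?_)
    norm_num
  have hP : HasSum (fun n : ℕ => (cr ell κ (n + 1) : ℂ) * ((n + 1 : ℕ) : ℂ) ^ (1 - s))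
      (LSeries (fun n => (cr ell κ n : ℂ)) w) := by
    have h3 : HasSum (LSeries.term (fun n => (cr ell κ n : ℂ)) w)
      (LSeries (fun n => (cr ell κ n : ℂ)) w) := hsum.hasSum
    have h4 := (hasSum_nat_add_iff' (f := LSeries.term (fun n => (cr ell κ n : ℂ)) w) 1).2 h3
    simp only [sum_range_one, LSeries.term_zero, sub_zero] at h4
    have e : (fun n : ℕ => (cr ell κ (n + 1) : ℂ) * ((n + 1 : ℕ) : ℂ) ^ (1 - s)) =
        fun n => LSeries.term (fun n => (cr ell κ n : ℂ)) w (n + 1) := by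
      funext n
      have e1 : (1 : ℂ) - s = -w := by rw [hs]; ring
      rw [LSeries.term_of_ne_zero (by omega : n + 1 ≠ 0), e1, Complex.cpow_neg, div_eq_mul_inv]
    rw [e]
    exact h4
  have hab := abel_rel (C := 0) (m := cr ell κ) (by positivity : (0 : ℝ) ≤ 2 * (A + 2 * |κ|)) hPS s hs1 _ hP
  have hP2 : HasSum (fun n : ℕ => ((PS 0 (cr ell κ) (n + 1) / ((n + 1 : ℕ) : ℝ) : ℝ) : ℂ) *
      ((n + 1 : ℕ) : ℂ) ^ (1 - s)) (LSeries (fun n => (PS 0 (cr ell κ) n : ℂ)) s) := by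
    have h3 : HasSum (LSeries.term (fun n => (PS 0 (cr ell κ) n : ℂ)) s)
        (LSeries (fun n => (PS 0 (cr ell κ) n : ℂ)) s) := (PS_summable hPS s hs1).hasSum
    have h4 := (hasSum_nat_add_iff' (f := LSeries.term (fun n => (PS 0 (cr ell κ) n : ℂ)) s) 1).2 h3
    simp only [sum_range_one, LSeries.term_zero, sub_zero] at h4
    have e : (fun n : ℕ => ((PS 0 (cr ell κ) (n + 1) / ((n + 1 : ℕ) : ℝ) : ℝ) : ℂ) *
        ((n + 1 : ℕ) : ℂ) ^ (1 - s)) =
        fun n => LSeries.term (fun n => (PS 0 (cr ell κ) n : ℂ)) s (n + 1) := by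
      funext n
      have hn : ((n + 1 : ℕ) : ℂ) ≠ 0 := by exact_mod_cast (by omega : n + 1 ≠ 0)
      have hns : ((n + 1 : ℕ) : ℂ) ^ s ≠ 0 := by
        rw [Complex.cpow_ne_zero_iff]; exact Or.inl hn
      rw [LSeries.term_of_ne_zero (by omega : n + 1 ≠ 0), sub_eq_add_neg 1 s,
        Complex.cpow_add _ _ hn, Complex.cpow_one, Complex.cpow_neg]
      push_cast at hn hns ⊢
      field_simp
    rw [e]
    exact h4
  have hab2 := abel_rel (C := 0) (m := fun k => PS 0 (cr ell κ) k / k)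
    (by positivity : (0 : ℝ) ≤ 2 * (2 * (A + 2 * |κ|))) (AS_cr_le h κ) s hs1 _ hP2
  have e1 : s - 1 = w := by rw [hs]; ring
  rw [e1] at hab hab2
  simp only [Complex.ofReal_zero, add_zero] at hab hab2
  have e2 : LSeries (fun n => (TT ell κ n : ℂ)) s =
      LSeries (fun n => (PS 0 (fun k => PS 0 (cr ell κ) k / k) n : ℂ)) s := rfl
  unfold Hx
  rw [← hs, e2]
  linear_combination w * hab2 + hab

/-- the logarithm of the continuation -/
noncomputable def Lx (LL : ℕ → ℂ → ℂ) (ell : ℕ → ℝ) (κ : ℝ) (w : ℂ) : ℂ :=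
  (∑' p, Gen.dd LL ell p (1 + w)) - Hx ell κ w - κ * ZZ w

lemma Lx_series (h : Loc LL ell A) {κ : ℝ} {w : ℂ} (hw : 1 / 2 < w.re) :
    HasSum (fun p : ℕ => LL p (1 + w)) (Lx LL ell κ w) := by
  have h1 : HasSum (fun p => Gen.dd LL ell p (1 + w)) (∑' p, Gen.dd LL ell p (1 + w)) :=
    (Gen.dd_summable h (s := 1 + w) (by simp; linarith)).hasSum
  have hsum : LSeriesSummable (fun n => (cr ell κ n : ℂ)) w := by
    refine LSeriesSummable_of_le_const_mul_rpow (x := 1 / 2) hw ⟨A + 2 * |κ|, fun n hn => ?_⟩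
    rw [Complex.norm_real, Real.norm_eq_abs]
    refine (cr_le h κ n (by omega)).trans (le_of_eq ?_)
    norm_num
  have h2 : HasSum (LSeries.term (fun n => (cr ell κ n : ℂ)) w) (Hx ell κ w) := by
    rw [Hx_eq h hw]
    exact hsum.hasSum
  have h3 : HasSum (LSeries.term (fun n => (zz n : ℂ)) w) (ZZ w) :=
    (taskZ.2.1 w (by linarith)).hasSum
  have h4 := (h1.sub h2).sub (h3.mul_left (κ : ℂ))
  unfold Lx
  have e : (fun p : ℕ => LL p (1 + w)) = fun n : ℕ =>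
      Gen.dd LL ell n (1 + w) - LSeries.term (fun n => (cr ell κ n : ℂ)) w n -
        (κ : ℂ) * LSeries.term (fun n => (zz n : ℂ)) w n := by
    funext n
    unfold Gen.dd
    rcases Nat.eq_zero_or_pos n with hn | hn
    · subst hn
      simp [h.zeroE 0 Nat.not_prime_zero]
    · rw [LSeries.term_of_ne_zero (by omega), LSeries.term_of_ne_zero (by omega)]
      unfold cr
      have e : (1 : ℂ) - (1 + w) = -w := by ring
      rw [e, Complex.cpow_neg]
      push_cast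
      ring
  rw [e]
  exact h4

lemma Lx_diff (h : Loc LL ell A) {κ K : ℝ}
    (hT : ∀ n : ℕ, 1 ≤ n → |TT ell κ n| ≤ K * (1 + Real.log n) ^ 2) :
    DifferentiableOn ℂ (Lx LL ell κ) {w | 0 < w.re} := by
  have h2 : DifferentiableOn ℂ (fun w : ℂ => 1 + w) {w | 0 < w.re} := by fun_prop
  have h3 : DifferentiableOn ℂ (fun w : ℂ => ∑' p, Gen.dd LL ell p (1 + w)) {w | 0 < w.re} :=
    (Gen.DD_differentiable h).comp h2 (fun w (hw : 0 < w.re) => by
      show 1 < (1 + w).re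
      simp only [add_re, one_re]
      linarith)
  exact (h3.sub (Hx_diff h hT)).sub (taskZ.1.const_mul _)

lemma sq_of_hyp {κ ε K : ℝ} (hε : 0 ≤ ε) (hK : 0 ≤ K)
    (hT : ∀ n : ℕ, 1 ≤ n → |TT ell κ n| ≤
      (1 + Real.log n) * (ε * Real.log (1 + Real.log n) + K)) (n : ℕ) (hn : 1 ≤ n) :
    |TT ell κ n| ≤ (ε + K) * (1 + Real.log n) ^ 2 := by
  refine (hT n hn).trans ?_
  have h0 := Real.log_natCast_nonneg n
  have h1 : Real.log (1 + Real.log n) ≤ 1 + Real.log n := by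
    have := Real.log_le_sub_one_of_pos (by linarith : 0 < 1 + Real.log n)
    linarith
  have h2 : ε * Real.log (1 + Real.log n) ≤ ε * (1 + Real.log n) := mul_le_mul_of_nonneg_left h1 hε
  have h3 : K ≤ K * (1 + Real.log n) := by nlinarith
  have h4 : ε * Real.log (1 + Real.log n) + K ≤ (ε + K) * (1 + Real.log n) := by linarith
  calc (1 + Real.log n) * (ε * Real.log (1 + Real.log n) + K)
      ≤ (1 + Real.log n) * ((ε + K) * (1 + Real.log n)) :=
        mul_le_mul_of_nonneg_left h4 (by linarith)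
    _ = _ := by ring

lemma term_bound {κ ε K : ℝ} (hε : 0 ≤ ε) (hK : 0 ≤ K)
    (hT : ∀ n : ℕ, 1 ≤ n → |TT ell κ n| ≤
      (1 + Real.log n) * (ε * Real.log (1 + Real.log n) + K)) (σ : ℝ) (hσ : 0 < σ) (hσ1 : σ ≤ 1)
    (n : ℕ) (hn : 1 ≤ n) : |TT ell κ n| * (n : ℝ) ^ (-(1 + σ)) ≤
      (3 / σ * (ε * -Real.log σ + K) + 25 * ε / σ) * (n : ℝ) ^ (-(1 + σ / 2)) := by
  have hn0 : (0 : ℝ) < n := by exact_mod_cast hn
  have h0 := Real.log_natCast_nonneg n
  set u := 1 + Real.log n with hu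
  have hu1 : 1 ≤ u := by rw [hu]; linarith
  have hlσ : 0 ≤ -Real.log σ := by
    have := Real.log_nonpos hσ.le hσ1
    linarith
  have h1 : Real.log u ≤ -Real.log σ + σ * u := by
    have h2 := Real.log_le_sub_one_of_pos (by positivity : 0 < σ * u)
    rw [Real.log_mul hσ.ne' (by linarith)] at h2
    linarith
  have h2 : u ≤ 3 / σ * (n : ℝ) ^ (σ / 2) := by
    refine (one_log_le n hn (σ / 2) (by positivity)).trans ?_
    refine mul_le_mul_of_nonneg_right ?_ (by positivity)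
    have : 1 / (σ / 2) = 2 / σ := by field_simp
    rw [this]
    have h3 : 1 ≤ 1 / σ := by rw [le_div_iff₀ hσ]; linarith
    have h4 : 3 / σ = 1 / σ + 2 / σ := by ring
    linarith
  have h3 : u ≤ 5 / σ * (n : ℝ) ^ (σ / 4) := by
    refine (one_log_le n hn (σ / 4) (by positivity)).trans ?_
    refine mul_le_mul_of_nonneg_right ?_ (by positivity)
    have : 1 / (σ / 4) = 4 / σ := by field_simp
    rw [this]
    have h3 : 1 ≤ 1 / σ := by rw [le_div_iff₀ hσ]; linarith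
    have h4 : 5 / σ = 1 / σ + 4 / σ := by ring
    linarith
  have h4 : u ^ 2 ≤ 25 / σ ^ 2 * (n : ℝ) ^ (σ / 2) := by
    have h5 := pow_le_pow_left₀ (by linarith : 0 ≤ u) h3 2
    refine h5.trans (le_of_eq ?_)
    have e : ((n : ℝ) ^ (σ / 4)) ^ 2 = (n : ℝ) ^ (σ / 2) := by
      rw [← Real.rpow_natCast, ← Real.rpow_mul hn0.le]
      congr 1
      push_cast
      ring
    rw [mul_pow, e, div_pow]
    norm_num
  have h5 : u * (ε * Real.log u + K) ≤
      (3 / σ * (ε * -Real.log σ + K) + 25 * ε / σ) * (n : ℝ) ^ (σ / 2) := by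
    have h6 : ε * Real.log u ≤ ε * (-Real.log σ + σ * u) := mul_le_mul_of_nonneg_left h1 hε
    have h7 : u * (ε * Real.log u + K) ≤ u * (ε * -Real.log σ + K) + ε * σ * u ^ 2 := by
      nlinarith
    have h8 : 0 ≤ ε * -Real.log σ + K := by positivity
    have h9 : u * (ε * -Real.log σ + K) ≤ 3 / σ * (n : ℝ) ^ (σ / 2) * (ε * -Real.log σ + K) :=
      mul_le_mul_of_nonneg_right h2 h8
    have h10 : ε * σ * u ^ 2 ≤ ε * σ * (25 / σ ^ 2 * (n : ℝ) ^ (σ / 2)) :=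
      mul_le_mul_of_nonneg_left h4 (by positivity)
    have h11 : ε * σ * (25 / σ ^ 2 * (n : ℝ) ^ (σ / 2)) = 25 * ε / σ * (n : ℝ) ^ (σ / 2) := by
      field_simp
    calc _ ≤ _ := h7
      _ ≤ 3 / σ * (n : ℝ) ^ (σ / 2) * (ε * -Real.log σ + K) + 25 * ε / σ * (n : ℝ) ^ (σ / 2) := by
        rw [← h11]; exact add_le_add h9 h10
      _ = _ := by ring
  calc |TT ell κ n| * (n : ℝ) ^ (-(1 + σ)) ≤
      ((3 / σ * (ε * -Real.log σ + K) + 25 * ε / σ) * (n : ℝ) ^ (σ / 2)) * (n : ℝ) ^ (-(1 + σ)) :=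
        mul_le_mul_of_nonneg_right ((hT n hn).trans h5) (by positivity)
    _ = (3 / σ * (ε * -Real.log σ + K) + 25 * ε / σ) * ((n : ℝ) ^ (σ / 2) * (n : ℝ) ^ (-(1 + σ))) := by
        ring
    _ = _ := by
        rw [← Real.rpow_add hn0]
        congr 2
        ring

lemma LS_bound {κ ε K : ℝ} (hε : 0 ≤ ε) (hK : 0 ≤ K)
    (hT : ∀ n : ℕ, 1 ≤ n → |TT ell κ n| ≤
      (1 + Real.log n) * (ε * Real.log (1 + Real.log n) + K)) (w : ℂ) (hσ : 0 < w.re)
    (hσ1 : w.re ≤ 1) : ‖LSeries (fun n => (TT ell κ n : ℂ)) (1 + w)‖ ≤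
      (9 * (ε * -Real.log w.re + K) + 75 * ε) / w.re ^ 2 := by
  set σ := w.re with hσdef
  have hlσ : 0 ≤ -Real.log σ := by
    have := Real.log_nonpos hσ.le hσ1
    linarith
  obtain ⟨hs, hle⟩ := zeta_le (σ / 2) (by positivity)
  set M := 3 / σ * (ε * -Real.log σ + K) + 25 * ε / σ with hM
  have hM0 : 0 ≤ M := by positivity
  have h1 : ‖LSeries (fun n => (TT ell κ n : ℂ)) (1 + w)‖ ≤
      ∑' n : ℕ, M * (n : ℝ) ^ (-(1 + σ / 2)) := by
    refine tsum_of_norm_bounded (hs.mul_left M).hasSum (fun n => ?_)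
    rcases Nat.eq_zero_or_pos n with h | h
    · subst h
      rw [LSeries.term_zero, norm_zero]
      positivity
    · have h2 := term_bound hε hK hT σ hσ hσ1 n h
      refine le_trans (le_of_eq ?_) h2
      have hn0 : (0 : ℝ) < n := by exact_mod_cast h
      rw [LSeries.term_of_ne_zero (by omega), norm_div, Complex.norm_real, Real.norm_eq_abs,
        Complex.norm_natCast_cpow_of_pos h, Real.rpow_neg hn0.le, div_eq_mul_inv]
      simp [hσdef]
  refine h1.trans ?_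
  rw [tsum_mul_left]
  have h3 : ∑' n : ℕ, (n : ℝ) ^ (-(1 + σ / 2)) ≤ 3 / σ := by
    refine hle.trans ?_
    have : 1 / (σ / 2) = 2 / σ := by field_simp
    rw [this]
    have h3 : 1 ≤ 1 / σ := by rw [le_div_iff₀ hσ]; linarith
    have h4 : 3 / σ = 1 / σ + 2 / σ := by ring
    linarith
  refine (mul_le_mul_of_nonneg_left h3 hM0).trans (le_of_eq ?_)
  rw [hM]
  field_simp
  ring

lemma Lx_bound (h : Loc LL ell A) (κ : ℝ) : ∃ K1 : ℝ, ∃ η : ℝ, 0 < η ∧ η ≤ 1 ∧ ∀ (ε K : ℝ), 0 ≤ ε → 0 ≤ K →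
    (∀ n : ℕ, 1 ≤ n → |TT ell κ n| ≤
      (1 + Real.log n) * (ε * Real.log (1 + Real.log n) + K)) → ∀ w : ℝ, 0 < w → w < η →
    |(Lx LL ell κ w).re - κ * Real.log w| ≤ 9 * (ε * -Real.log w + K) + 75 * ε + K1 := by
  have hApos := h.pos
  obtain ⟨c, -, -, Cz, hCz⟩ := TZ0.Z0_ok
  obtain ⟨C1, hC1⟩ := Gen.DD_bound h
  obtain ⟨η0, hη0, hη⟩ := mem_nhdsGT_iff_exists_Ioo_subset.1 hC1
  have hK32 : 0 ≤ K32 := tsum_nonneg fun n => by positivity
  set Kc := 2 * (A + 2 * |κ|) with hKc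
  have hKc0 : 0 ≤ Kc := by positivity
  refine ⟨C1 + 2 * (2 * Kc) * K32 + 2 * Kc * K32 + |κ| * |Cz|, min η0 1, lt_min hη0 one_pos,
    min_le_right _ _, ?_⟩
  intro ε K hε hK hT w hw hwη
  have hw1 : w ≤ 1 := (hwη.le.trans (min_le_right _ _))
  have hre0 : (w : ℂ).re = w := Complex.ofReal_re w
  have hn : ‖(w : ℂ)‖ = w := by rw [Complex.norm_real, Real.norm_eq_abs, abs_of_pos hw]
  have hd1 : ‖∑' p, Gen.dd LL ell p (1 + w)‖ ≤ C1 := hη ⟨hw, lt_of_lt_of_le hwη (min_le_left _ _)⟩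
  have hz1 := hCz (w : ℂ) (by simpa using hw) (by rw [hn]; exact hw1)
  have hLS := LS_bound hε hK hT (w : ℂ) (by simpa using hw) (by simpa using hw1)
  rw [hre0] at hLS
  have hre : 1 ≤ (1 + (w : ℂ)).re := by simp [hw.le]
  have e1 : (1 : ℂ) + w - 1 = w := by ring
  have h1w : ‖(1 : ℂ) + w‖ ≤ 2 := by
    refine (norm_add_le _ _).trans ?_
    rw [norm_one, hn]; linarith
  have hww : ‖(w : ℂ)‖ * ‖(1 : ℂ) + w‖ ≤ 2 := by
    have := mul_le_mul (by rw [hn]; exact hw1 : ‖(w : ℂ)‖ ≤ 1) h1w (norm_nonneg _) (by norm_num)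
    linarith
  have hE1 : ‖EE 0 (cr ell κ) (1 + w)‖ ≤ 2 * Kc * K32 := by
    have h := (EE_bound (C := 0) (m := cr ell κ) hKc0 (fun n hn => PS_cr_le h κ n hn) (1 + w) hre).2
    rw [e1] at h
    refine h.trans ?_
    have := mul_le_mul_of_nonneg_right hww (mul_nonneg hKc0 hK32)
    calc ‖(w : ℂ)‖ * ‖(1 : ℂ) + w‖ * Kc * K32 = ‖(w : ℂ)‖ * ‖(1 : ℂ) + w‖ * (Kc * K32) := by ring
      _ ≤ 2 * (Kc * K32) := this
      _ = _ := by ring
  have hE2 : ‖EE 0 (fun k => PS 0 (cr ell κ) k / k) (1 + w)‖ ≤ 2 * (2 * Kc) * K32 := by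
    have h := (EE_bound (C := 0) (m := fun k => PS 0 (cr ell κ) k / k)
      (by positivity : (0 : ℝ) ≤ 2 * Kc) (AS_cr_le h κ) (1 + w) hre).2
    rw [e1] at h
    refine h.trans ?_
    have := mul_le_mul_of_nonneg_right hww (mul_nonneg (by positivity : (0 : ℝ) ≤ 2 * Kc) hK32)
    calc ‖(w : ℂ)‖ * ‖(1 : ℂ) + w‖ * (2 * Kc) * K32 = ‖(w : ℂ)‖ * ‖(1 : ℂ) + w‖ * ((2 * Kc) * K32) := by
          ring
      _ ≤ 2 * ((2 * Kc) * K32) := this
      _ = _ := by ring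
  set B := 9 * (ε * -Real.log w + K) + 75 * ε with hB
  have hB0 : 0 ≤ B := by
    have : 0 ≤ -Real.log w := by
      have := Real.log_nonpos hw.le hw1
      linarith
    positivity
  have hH : ‖Hx ell κ w‖ ≤ B + 2 * (2 * Kc) * K32 + 2 * Kc * K32 := by
    unfold Hx
    refine (norm_sub_le _ _).trans (add_le_add ((norm_sub_le _ _).trans (add_le_add ?_ ?_)) hE1)
    · rw [norm_mul, norm_pow, hn]
      refine (mul_le_mul_of_nonneg_left hLS (by positivity)).trans (le_of_eq ?_)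
      field_simp
    · rw [norm_mul, hn]
      calc w * ‖EE 0 (fun k => PS 0 (cr ell κ) k / k) (1 + w)‖ ≤ 1 * (2 * (2 * Kc) * K32) :=
            mul_le_mul hw1 hE2 (norm_nonneg _) (by norm_num)
        _ = _ := one_mul _
  have hD : |(∑' p, Gen.dd LL ell p (1 + w)).re| ≤ C1 := (Complex.abs_re_le_norm _).trans hd1
  rw [hn] at hz1
  have hZ : |κ * ((ZZ w).re + Real.log w)| ≤ |κ| * |Cz| := by
    rw [abs_mul]
    exact mul_le_mul_of_nonneg_left (hz1.trans (le_abs_self _)) (abs_nonneg _)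
  have e2 : (Lx LL ell κ w).re - κ * Real.log w = (∑' p, Gen.dd LL ell p (1 + w)).re -
      (Hx ell κ w).re - κ * ((ZZ w).re + Real.log w) := by
    unfold Lx
    simp only [sub_re, Complex.re_ofReal_mul]
    ring
  rw [e2]
  have hHr : |(Hx ell κ w).re| ≤ B + 2 * (2 * Kc) * K32 + 2 * Kc * K32 :=
    (Complex.abs_re_le_norm _).trans hH
  calc |(∑' p, Gen.dd LL ell p (1 + w)).re - (Hx ell κ w).re - κ * ((ZZ w).re + Real.log w)|
      ≤ |(∑' p, Gen.dd LL ell p (1 + w)).re| + |(Hx ell κ w).re| +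
        |κ * ((ZZ w).re + Real.log w)| := by
        refine (abs_sub _ _).trans ?_
        exact add_le_add_left (abs_sub _ _) _
    _ ≤ C1 + (B + 2 * (2 * Kc) * K32 + 2 * Kc * K32) + |κ| * |Cz| := by
        linarith
    _ = _ := by ring

lemma ev_pos' : ∀ᶠ n : ℕ in atTop, 2 ≤ n ∧ 0 < Real.log n ∧ 0 < DL n := ev_pos

/-- the second partial sums, from the limit of the quotient -/
lemma TT_of_MR (hloc : Loc LL ell A) {κ : ℝ} (h : Tendsto (MR (lE ell)) atTop (𝓝 κ)) (ε : ℝ)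
    (hε : 0 < ε) : ∃ K : ℝ, 0 ≤ K ∧
    ∀ n : ℕ, 1 ≤ n → |TT ell κ n| ≤ (1 + Real.log n) * (ε * Real.log (1 + Real.log n) + K) := by
  obtain ⟨c0, hc0, hz⟩ := zz_diff
  have h1 : ∀ᶠ n : ℕ in atTop, |MR (lE ell) n - κ| ≤ ε := by
    have := (Metric.tendsto_nhds.1 h) ε hε
    filter_upwards [this] with n hn
    rw [Real.dist_eq] at hn
    exact hn.le
  obtain ⟨N, hN⟩ := eventually_atTop.1 (h1.and ev_pos)
  set S : ℕ → ℝ := fun n => ∑ k ∈ Finset.Icc 2 n,
    (lE ell k - κ * Real.log (Real.log k)) / k with hS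
  set M := ∑ k ∈ Finset.range N, |S k| with hM
  have hM0 : 0 ≤ M := Finset.sum_nonneg fun k _ => abs_nonneg _
  refine ⟨M + |κ| * c0, by positivity, fun n hn => ?_⟩
  have h0 := Real.log_natCast_nonneg n
  have hl : 0 ≤ Real.log (1 + Real.log n) := Real.log_nonneg (by linarith)
  have hSn : |S n| ≤ (1 + Real.log n) * (ε * Real.log (1 + Real.log n) + M) := by
    by_cases hc : N ≤ n
    · obtain ⟨h2, h3, h4, h5⟩ := hN n hc
      have h6 : S n = (MR (lE ell) n - κ) * DL n := by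
        have e1 : S n = (∑ k ∈ Finset.Icc 2 n, lE ell k / k) - κ * DL n := by
          rw [hS]
          unfold DL
          rw [Finset.mul_sum, ← Finset.sum_sub_distrib]
          refine Finset.sum_congr rfl fun k _ => ?_
          ring
        have e2 : MR (lE ell) n = (∑ k ∈ Finset.Icc 2 n, lE ell k / k) / DL n := rfl
        rw [e1, e2, sub_mul, div_mul_cancel₀ _ h5.ne']
      rw [h6, abs_mul, abs_of_pos h5]
      calc |MR (lE ell) n - κ| * DL n ≤ ε * ((1 + Real.log n) * Real.log (1 + Real.log n)) :=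
            mul_le_mul h2 (DL_le n hn) h5.le hε.le
        _ ≤ _ := by nlinarith [mul_nonneg h0 hM0]
    · push Not at hc
      have h2 : |S n| ≤ M := Finset.single_le_sum (f := fun k => |S k|)
        (fun k _ => abs_nonneg _) (Finset.mem_range.2 hc)
      have h3 : 0 ≤ ε * Real.log (1 + Real.log n) := by positivity
      nlinarith [mul_nonneg h0 hM0, mul_nonneg h0 h3]
  rw [TT_eq hloc]
  calc |(∑ k ∈ Finset.Icc 2 n, (lE ell k - κ * Real.log (Real.log k)) / k) -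
        κ * ∑ k ∈ Finset.Icc 2 n, ((∑ j ∈ Finset.Icc 1 k, zz j) - Real.log (Real.log k)) / k|
      ≤ |S n| + |κ * ∑ k ∈ Finset.Icc 2 n,
        ((∑ j ∈ Finset.Icc 1 k, zz j) - Real.log (Real.log k)) / k| := abs_sub _ _
    _ ≤ (1 + Real.log n) * (ε * Real.log (1 + Real.log n) + M) +
        |κ| * (c0 * (1 + Real.log n)) := by
        rw [abs_mul]
        exact add_le_add hSn (mul_le_mul_of_nonneg_left (hz n) (abs_nonneg _))
    _ = _ := by ring

/-- The limit of the quotient: continuation without zeros, and its size near `1`. -/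
theorem free_MR (hl : Loc LL ell A) (κ : ℝ) (h : Tendsto (MR (lE ell)) atTop (𝓝 κ)) :
    ∃ G : ℂ → ℂ, DifferentiableOn ℂ G {s | 1 < s.re} ∧ (∀ s : ℂ, 1 < s.re → G s ≠ 0) ∧
      (∀ s : ℂ, (3 : ℝ) / 2 < s.re → HasProd (fun p : ℕ => exp (LL p s)) (G s)) ∧
      Tendsto (fun σ : ℝ => Real.log ‖G (1 + σ)‖ / Real.log σ) (𝓝[>] 0) (𝓝 κ) := by
  obtain ⟨K, hK, hT⟩ := TT_of_MR hl h 1 one_pos
  obtain ⟨K1, η1, hη1, hη2, hb⟩ := Lx_bound hl κ
  refine ⟨fun s => exp (Lx LL ell κ (s - 1)), ?_, fun s _ => Complex.exp_ne_zero _, fun s hs => ?_, ?_⟩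
  · have h1 : DifferentiableOn ℂ (fun s : ℂ => s - 1) {s | 1 < s.re} := by fun_prop
    have h2 := (Lx_diff hl (sq_of_hyp zero_le_one hK hT)).comp h1 (fun s (hs : 1 < s.re) => by
      show 0 < (s - 1).re
      simp only [sub_re, one_re]; linarith)
    exact h2.cexp
  · have h1 : 1 / 2 < (s - 1).re := by simp only [sub_re, one_re]; linarith
    have h2 := (Lx_series hl (κ := κ) h1).cexp
    have e0 : (1 : ℂ) + (s - 1) = s := by ring
    rw [e0] at h2
    exact h2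
  rw [Metric.tendsto_nhds]
  intro η hη
  obtain ⟨K2, hK2, hT2⟩ := TT_of_MR hl h (η / 18) (by positivity)
  have hbot : Tendsto (fun w : ℝ => Real.log w) (𝓝[>] 0) atBot := Real.tendsto_log_nhdsGT_zero
  have hw1 : ∀ᶠ w : ℝ in 𝓝[>] 0, w < η1 := by
    have : Set.Iio η1 ∈ 𝓝 (0 : ℝ) := Iio_mem_nhds hη1
    exact mem_nhdsWithin_of_mem_nhds this
  filter_upwards [hbot.eventually (eventually_lt_atBot (-((9 * K2 + 75 * (η / 18) + K1 + 1) / (η / 2)))),
    hbot.eventually (eventually_lt_atBot (-1)), hw1, self_mem_nhdsWithin] with σ h1 h2 h3 h4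
  have hσ : (0 : ℝ) < σ := h4
  have e1 : ((1 : ℂ) + σ - 1) = (σ : ℂ) := by ring
  have h5 := hb (η / 18) K2 (by positivity) hK2 hT2 σ hσ h3
  rw [Real.dist_eq, e1, Complex.norm_exp, Real.log_exp]
  have hl : Real.log σ < 0 := by linarith
  have e2 : (Lx LL ell κ σ).re / Real.log σ - κ =
      ((Lx LL ell κ σ).re - κ * Real.log σ) / Real.log σ := by
    rw [sub_div, mul_div_assoc, div_self hl.ne, mul_one]
  rw [e2, abs_div, abs_of_neg hl, div_lt_iff₀ (by linarith)]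
  refine lt_of_le_of_lt h5 ?_
  have h6 : 9 * K2 + 75 * (η / 18) + K1 + 1 < (η / 2) * -Real.log σ := by
    have h7 : (9 * K2 + 75 * (η / 18) + K1 + 1) / (η / 2) < -Real.log σ := by linarith
    rw [div_lt_iff₀ (by positivity)] at h7
    linarith
  nlinarith

end

end Pool.Agent.H705R3.BSDG
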