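import Pool.Agent.H705R3.BSD.GenFree

/-! Continuation without zeros of the `L`-functions of the odd cohomology of powers of hyperelliptic
curves, from the averages of the partial products at the centre. -/

set_option autoImplicit false
set_option maxHeartbeats 2000000

open Complex Filter Topology Finset MeasureTheory

namespace Pool.Agent.H705R3.BSDG

open Pool.Agent.H438R3.BSD Pool.Agent.H438R3.BSD.Gen Pool.Agent.H341R2

open Classical in
/-- the reverse of `prodH` -/
lemma prodH' (f : Polynomial ℤ) (n j : ℕ) (s : ℂ) (v : ℂ)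
    (hF : HasProd (fun p : ℕ => exp (LLc (goodH f) (cH f n j) p s)) v) :
    HasProd (fun p : Nat.Primes => if GoodPrime f 1 p then
      goodFactor n (2 * j + 1) f 1 p (s + j) else 1) v := by
  have h3 : Function.mulSupport (fun p : ℕ => exp (LLc (goodH f) (cH f n j) p s)) ⊆
      Set.range ((↑) : Nat.Primes → ℕ) := by
    intro p hp
    by_contra hcon
    apply hp
    have : ¬ p.Prime := fun h => hcon ⟨⟨p, h⟩, rfl⟩
    simp only
    unfold LLc
    rw [if_neg (fun hh : goodH f p => this hh.1), Complex.exp_zero]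
  have h2 : HasProd ((fun p : ℕ => exp (LLc (goodH f) (cH f n j) p s)) ∘ ((↑) : Nat.Primes → ℕ)) v :=
    (Function.Injective.hasProd_iff Subtype.val_injective (fun x hx => by
      by_contra h
      exact hx (h3 h))).2 hF
  have e0 : ((fun p : ℕ => exp (LLc (goodH f) (cH f n j) p s)) ∘ ((↑) : Nat.Primes → ℕ)) =
      (fun p : Nat.Primes => if GoodPrime f 1 p then
      goodFactor n (2 * j + 1) f 1 p (s + j) else 1) := by
    funext p
    simp only [Function.comp_apply]
    unfold LLc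
    have hpc : ((p : ℕ) : ℂ) ≠ 0 := by exact_mod_cast p.2.ne_zero
    by_cases hg : GoodPrime f 1 p
    · rw [if_pos hg, if_pos (show goodH f (p : ℕ) from ⟨p.2, hg⟩)]
      unfold goodFactor
      congr 1
      refine tsum_congr fun m => ?_
      unfold cH
      rw [dif_pos p.2]
      have e1 : ((p : ℕ) : ℂ) ^ (-((m + 1 : ℂ) * (s + j))) =
          ((p : ℕ) : ℂ) ^ (-((m + 1 : ℂ) * s)) / (((p : ℕ) : ℂ) ^ ((m + 1) * j)) := by
        rw [← Complex.cpow_natCast, ← Complex.cpow_sub _ _ hpc]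
        congr 1
        push_cast
        ring
      rw [e1]
      push_cast
      ring
    · rw [if_neg hg, if_neg (fun hh : goodH f (p : ℕ) => hg hh.2), Complex.exp_zero]
  rw [e0] at h2
  exact h2

open Classical in
theorem hyp_free (f : Polynomial ℤ) (hd : 1 ≤ f.natDegree) (n j : ℕ) (κ : ℝ)
    (h : Tendsto (MR (lH f n j)) atTop (𝓝 κ)) :
    ∃ G : ℂ → ℂ, DifferentiableOn ℂ G {s | (j : ℝ) + 1 < s.re} ∧
      (∀ s : ℂ, (j : ℝ) + 1 < s.re → G s ≠ 0) ∧
      (∀ s : ℂ, (j : ℝ) + 3 / 2 < s.re → HasProd (fun p : Nat.Primes => if GoodPrime f 1 p then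
        goodFactor n (2 * j + 1) f 1 p s else 1) (G s)) ∧
      Tendsto (fun σ : ℝ => Real.log ‖G (j + 1 + σ)‖ / Real.log σ) (𝓝[>] 0) (𝓝 κ) := by
  have hloc := locC (good := goodH f) (c := cH f n j) (K := (5 * f.natDegree + 1 + 2) ^ n)
    (fun p hp => hp.1) (by positivity) (fun p hp m hm => cH_le f hd n j p hp m hm)
  have h' : Tendsto (MR (lE (ellc (goodH f) (cH f n j)))) atTop (𝓝 κ) := by
    have e : lE (ellc (goodH f) (cH f n j)) = lH f n j := funext fun k => (lH_eq f n j k).symm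
    rw [e]
    exact h
  obtain ⟨G, hG1, hG2, hG3, hG4⟩ := free_MR hloc κ h'
  refine ⟨fun s => G (s - j), ?_, fun s hs => hG2 _ ?_, fun s hs => ?_, ?_⟩
  · have h1 : DifferentiableOn ℂ (fun s : ℂ => s - j) {s | (j : ℝ) + 1 < s.re} := by fun_prop
    exact hG1.comp h1 (fun s (hs : (j : ℝ) + 1 < s.re) => by
      show 1 < (s - j).re
      simp only [sub_re, natCast_re]; linarith)
  · simp only [sub_re, natCast_re]; linarith
  · have h1 := prodH' f n j (s - j) _ (hG3 (s - j) (by simp only [sub_re, natCast_re]; linarith))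
    have e : s - (j : ℂ) + j = s := by ring
    rw [e] at h1
    exact h1
  · refine hG4.congr fun σ => ?_
    have e : ((j : ℂ) + 1 + σ) - j = 1 + σ := by ring
    simp only [e]

section

variable {LL : ℕ → ℂ → ℂ} {ell : ℕ → ℝ} {A : ℝ}

open Pool.Agent.H814R3.BSD Pool.Agent.H705R3.BSD

/-- Power bounds for the averages: continuation without zeros to a smaller half plane. -/
theorem free_theta (h : Loc LL ell A) (δ : ℝ) (hδ : 0 ≤ δ)
    (hb : ∀ δ' : ℝ, δ < δ' → ∃ K : ℝ, ∀ n : ℕ, 1 ≤ n →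
      |∑ k ∈ Finset.Icc 2 n, lE ell k / k| ≤ K * (n : ℝ) ^ δ') :
    ∃ G : ℂ → ℂ, DifferentiableOn ℂ G {s | 1 + δ < s.re} ∧ (∀ s : ℂ, 1 + δ < s.re → G s ≠ 0) ∧
      (∀ s : ℂ, (3 : ℝ) / 2 < s.re → HasProd (fun p : ℕ => exp (LL p s)) (G s)) := by
  have hApos := h.pos
  have hTT : ∀ n : ℕ, TT ell 0 n = ∑ k ∈ Finset.Icc 2 n, lE ell k / k := by
    intro n
    rw [TT_eq h]
    simp
  have hsummT : ∀ s : ℂ, 1 + δ < s.re → LSeriesSummable (fun n => (TT ell 0 n : ℂ)) s := by
    intro s hs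
    obtain ⟨K, hK⟩ := hb ((δ + (s.re - 1)) / 2) (by linarith)
    refine LSeriesSummable_of_le_const_mul_rpow (x := 1 + (δ + (s.re - 1)) / 2) (by linarith)
      ⟨K, fun n hn => ?_⟩
    rw [Complex.norm_real, Real.norm_eq_abs, hTT, add_sub_cancel_left]
    exact hK n (by omega)
  have hab : LSeries.abscissaOfAbsConv (fun n => (TT ell 0 n : ℂ)) ≤ ((1 + δ : ℝ) : EReal) :=
    LSeries.abscissaOfAbsConv_le_of_forall_lt_LSeriesSummable' fun y hy =>
      hsummT (y : ℂ) (by
        have : (1 + δ : ℝ) < y := by exact_mod_cast hy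
        simpa using this)
  have h1 : DifferentiableOn ℂ (LSeries (fun n => (TT ell 0 n : ℂ))) {s | 1 + δ < s.re} := by
    refine (LSeries_differentiableOn _).mono fun s (hs : 1 + δ < s.re) => ?_
    show LSeries.abscissaOfAbsConv _ < (s.re : EReal)
    refine lt_of_le_of_lt hab ?_
    exact_mod_cast hs
  have hadd : DifferentiableOn ℂ (fun w : ℂ => 1 + w) {w | δ < w.re} := by fun_prop
  have hmaps : Set.MapsTo (fun w : ℂ => 1 + w) {w | δ < w.re} {s | 1 + δ < s.re} := by
    intro w (hw : δ < w.re)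
    show 1 + δ < (1 + w).re
    simp only [add_re, one_re]; linarith
  have hmaps2 : Set.MapsTo (fun w : ℂ => 1 + w) {w | δ < w.re} {s | 1 < s.re} := by
    intro w (hw : δ < w.re)
    show 1 < (1 + w).re
    simp only [add_re, one_re]; linarith
  have h2 := EE_differentiable (C := 0) (m := fun k => PS 0 (cr ell 0) k / k)
    (K := 2 * (2 * (A + 2 * |(0 : ℝ)|))) (by positivity) (AS_cr_le h 0)
  have h3 := EE_differentiable (C := 0) (m := cr ell 0) (K := 2 * (A + 2 * |(0 : ℝ)|)) (by positivity)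
    (fun n hn => PS_cr_le h 0 n hn)
  have d1 := h1.comp hadd hmaps
  have d2 := h2.comp hadd hmaps2
  have d3 := h3.comp hadd hmaps2
  have hH : DifferentiableOn ℂ (Hx ell 0) {w | δ < w.re} := by
    unfold Hx
    exact ((DifferentiableOn.mul (by fun_prop) d1).sub (DifferentiableOn.mul (by fun_prop) d2)).sub d3
  have hD : DifferentiableOn ℂ (fun w : ℂ => ∑' p, Gen.dd LL ell p (1 + w)) {w | δ < w.re} :=
    (Gen.DD_differentiable h).comp hadd hmaps2
  have hL : DifferentiableOn ℂ (Lx LL ell 0) {w | δ < w.re} :=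
    (hD.sub hH).sub ((taskZ.1.mono fun w (hw : δ < w.re) => (by
      show 0 < w.re
      linarith : w ∈ {w : ℂ | 0 < w.re})).const_mul _)
  refine ⟨fun s => exp (Lx LL ell 0 (s - 1)), ?_, fun s _ => Complex.exp_ne_zero _, fun s hs => ?_⟩
  · have h1 : DifferentiableOn ℂ (fun s : ℂ => s - 1) {s | 1 + δ < s.re} := by fun_prop
    have h2 := hL.comp h1 (fun s (hs : 1 + δ < s.re) => by
      show δ < (s - 1).re
      simp only [sub_re, one_re]; linarith)
    exact h2.cexp
  · have h1 : 1 / 2 < (s - 1).re := by simp only [sub_re, one_re]; linarith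
    have h2 := (Lx_series h (κ := 0) h1).cexp
    have e0 : (1 : ℂ) + (s - 1) = s := by ring
    rw [e0] at h2
    exact h2

end

open Classical in
theorem hyp_theta (f : Polynomial ℤ) (hd : 1 ≤ f.natDegree) (n j : ℕ) (δ : ℝ) (hδ : 0 ≤ δ)
    (hb : ∀ δ' : ℝ, δ < δ' → ∃ K : ℝ, ∀ x : ℕ, 1 ≤ x →
      |∑ k ∈ Finset.Icc 2 x, lH f n j k / k| ≤ K * (x : ℝ) ^ δ') :
    ∃ G : ℂ → ℂ, DifferentiableOn ℂ G {s | (j : ℝ) + 1 + δ < s.re} ∧
      (∀ s : ℂ, (j : ℝ) + 1 + δ < s.re → G s ≠ 0) ∧
      (∀ s : ℂ, (j : ℝ) + 3 / 2 < s.re → HasProd (fun p : Nat.Primes => if GoodPrime f 1 p then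
        goodFactor n (2 * j + 1) f 1 p s else 1) (G s)) := by
  have hloc := locC (good := goodH f) (c := cH f n j) (K := (5 * f.natDegree + 1 + 2) ^ n)
    (fun p hp => hp.1) (by positivity) (fun p hp m hm => cH_le f hd n j p hp m hm)
  obtain ⟨G, hG1, hG2, hG3⟩ := free_theta hloc δ hδ (fun δ' hδ' => by
    obtain ⟨K, hK⟩ := hb δ' hδ'
    refine ⟨K, fun x hx => ?_⟩
    have e : lE (ellc (goodH f) (cH f n j)) = lH f n j := funext fun k => (lH_eq f n j k).symm
    rw [e]
    exact hK x hx)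
  refine ⟨fun s => G (s - j), ?_, fun s hs => hG2 _ ?_, fun s hs => ?_⟩
  · have h1 : DifferentiableOn ℂ (fun s : ℂ => s - j) {s | (j : ℝ) + 1 + δ < s.re} := by fun_prop
    exact hG1.comp h1 (fun s (hs : (j : ℝ) + 1 + δ < s.re) => by
      show 1 + δ < (s - j).re
      simp only [sub_re, natCast_re]; linarith)
  · simp only [sub_re, natCast_re]; linarith
  · have h1 := prodH' f n j (s - j) _ (hG3 (s - j) (by simp only [sub_re, natCast_re]; linarith))
    have e : s - (j : ℂ) + j = s := by ring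
    rw [e] at h1
    exact h1

end Pool.Agent.H705R3.BSDG
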