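import Pool.Agent.H705R3.BSD.Equiv

/-! The ratio of the logarithmic averages of `log EP(n)` and of `log log n`. -/

set_option autoImplicit false
set_option maxHeartbeats 2000000

open Complex Filter Topology Finset MeasureTheory

namespace Pool.Agent.H705R3.BSD

open Pool.Agent.H438R3.BSD Pool.Agent.H814R3.BSD
open Classical

/-- the sum of `log log n / n` over `2 ≤ n ≤ x` -/
noncomputable def DL (x : ℕ) : ℝ := ∑ n ∈ Finset.Icc 2 x, Real.log (Real.log n) / n

/-- the quotient of the sums of `log EP(n) / n` and of `log log n / n` over `2 ≤ n ≤ x` -/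
noncomputable def MR (a b : ℤ) (x : ℕ) : ℝ :=
  (∑ n ∈ Finset.Icc 2 x, Real.log (EP a b n) / n) / ∑ n ∈ Finset.Icc 2 x, Real.log (Real.log n) / n

theorem loglog_ge (k : ℕ) (hk : 2 ≤ k) : -1 ≤ Real.log (Real.log k) := by
  have hkr : (2 : ℝ) ≤ k := by exact_mod_cast hk
  have h1 : 1 / 2 ≤ Real.log k := by
    have h2 := Real.log_two_gt_d9
    have h3 := Real.log_le_log (by norm_num) hkr
    linarith
  have h2 := Real.log_le_log (by norm_num) h1
  have h3 : Real.log (1 / 2 : ℝ) = -Real.log 2 := by rw [one_div, Real.log_inv]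
  have h4 := Real.log_two_lt_d9
  linarith

theorem DL_tendsto : Tendsto (fun n : ℕ => DL n / Real.log n) atTop atTop := by
  rw [tendsto_atTop]
  intro T0
  set T := |T0| with hT
  have hT0 : 0 ≤ T := abs_nonneg _
  have hll : Tendsto (fun n : ℕ => Real.log (Real.log n)) atTop atTop :=
    Real.tendsto_log_atTop.comp (Real.tendsto_log_atTop.comp tendsto_natCast_atTop_atTop)
  obtain ⟨K0, hK0⟩ := eventually_atTop.1 (hll.eventually (eventually_ge_atTop (T + 1)))
  have hl : Tendsto (fun n : ℕ => Real.log n) atTop atTop :=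
    Real.tendsto_log_atTop.comp tendsto_natCast_atTop_atTop
  filter_upwards [eventually_ge_atTop 2,
    hl.eventually (eventually_ge_atTop ((T + 1) + (T + 2) * K0 + 1))] with n hn hn2
  have hnr : (2 : ℝ) ≤ n := by exact_mod_cast hn
  have hpos : 0 < Real.log n := Real.log_pos (by linarith)
  rw [le_div_iff₀ hpos]
  have h1 : ∀ k ∈ Finset.Icc 2 n, (T + 1) * (1 / (k : ℝ)) - (if k < K0 then (T + 2) else 0) ≤
      Real.log (Real.log k) / k := by
    intro k hk
    have hk2 : 2 ≤ k := (Finset.mem_Icc.1 hk).1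
    have hkr : (2 : ℝ) ≤ k := by exact_mod_cast hk2
    have hk0 : (0 : ℝ) < k := by linarith
    rw [le_div_iff₀ hk0]
    split_ifs with h
    · have h2 := loglog_ge k hk2
      have h3 : ((T + 1) * (1 / (k : ℝ)) - (T + 2)) * k = (T + 1) - (T + 2) * k := by
        field_simp
      rw [h3]
      nlinarith
    · push Not at h
      have h2 := hK0 k h
      have h3 : ((T + 1) * (1 / (k : ℝ)) - 0) * k = T + 1 := by
        field_simp
        ring
      rw [h3]
      exact h2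
  have h2 := Finset.sum_le_sum h1
  rw [Finset.sum_sub_distrib, ← Finset.mul_sum] at h2
  have h3 : ∑ k ∈ Finset.Icc 2 n, (if k < K0 then (T + 2) else 0) ≤ (T + 2) * K0 := by
    rw [← Finset.sum_filter]
    rw [Finset.sum_const, nsmul_eq_mul, mul_comm]
    refine mul_le_mul_of_nonneg_left ?_ (by linarith)
    have h4 : (Finset.filter (fun k => k < K0) (Finset.Icc 2 n)).card ≤ (Finset.range K0).card := by
      refine Finset.card_le_card fun k hk => ?_
      rw [Finset.mem_filter] at hk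
      exact Finset.mem_range.2 hk.2
    rw [Finset.card_range] at h4
    exact_mod_cast h4
  have h4 := log_le_sum n (by omega)
  have h5 : Real.log n ≤ Real.log (n + 1) := Real.log_le_log (by linarith) (by linarith)
  have h6 : T0 ≤ T := le_abs_self _
  unfold DL
  nlinarith

theorem MR_eq (a b : ℤ) (κ : ℝ) (n : ℕ) (hn : 2 ≤ n) (hD : DL n ≠ 0) :
    MR a b n = κ + LA a b κ n * (Real.log n / DL n) := by
  have hnr : (2 : ℝ) ≤ n := by exact_mod_cast hn
  have hpos : 0 < Real.log n := Real.log_pos (by linarith)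
  have h1 : LA a b κ n * Real.log n = (∑ n ∈ Finset.Icc 2 n, Real.log (EP a b n) / n) - κ * DL n := by
    unfold LA DL
    rw [div_mul_cancel₀ _ hpos.ne', Finset.mul_sum, ← Finset.sum_sub_distrib]
    refine Finset.sum_congr rfl fun j _ => ?_
    ring
  have h2 : MR a b n = (∑ n ∈ Finset.Icc 2 n, Real.log (EP a b n) / n) / DL n := rfl
  rw [h2, ← mul_div_assoc, h1]
  field_simp
  ring

theorem ev_pos : ∀ᶠ n : ℕ in atTop, 2 ≤ n ∧ 0 < Real.log n ∧ 0 < DL n := by
  filter_upwards [eventually_ge_atTop 2, DL_tendsto.eventually (eventually_gt_atTop 0)] with n hn h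
  have hnr : (2 : ℝ) ≤ n := by exact_mod_cast hn
  have hpos : 0 < Real.log n := Real.log_pos (by linarith)
  exact ⟨hn, hpos, by rwa [lt_div_iff₀ hpos, zero_mul] at h⟩

theorem inv_tendsto : Tendsto (fun n : ℕ => Real.log n / DL n) atTop (𝓝 0) := by
  have h := tendsto_inv_atTop_zero.comp DL_tendsto
  refine h.congr fun n => ?_
  simp only [Function.comp_apply, inv_div]

theorem MR_tendsto (a b : ℤ) (κ : ℝ) (h : ∃ C : ℝ, ∀ x : ℕ, |LA a b κ x| ≤ C) :
    Tendsto (MR a b) atTop (𝓝 κ) := by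
  obtain ⟨C, hC⟩ := h
  have h1 : Tendsto (fun n : ℕ => LA a b κ n * (Real.log n / DL n)) atTop (𝓝 0) := by
    have h2 := inv_tendsto.const_mul C
    rw [mul_zero] at h2
    refine squeeze_zero_norm' ?_ h2
    filter_upwards [ev_pos] with n hn
    have h3 : 0 < Real.log n / DL n := div_pos hn.2.1 hn.2.2
    rw [norm_mul, Real.norm_eq_abs, Real.norm_eq_abs, abs_of_pos h3]
    exact mul_le_mul_of_nonneg_right (hC n) h3.le
  have h2 := (tendsto_const_nhds (x := κ)).add h1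
  rw [add_zero] at h2
  refine h2.congr' ?_
  filter_upwards [ev_pos] with n hn
  exact (MR_eq a b κ n hn.1 hn.2.2.ne').symm

/-- an eventual upper bound for the quotient gives an upper bound for the averages -/
theorem LA_of_MR (a b : ℤ) (κ : ℝ) (h : ∀ᶠ x : ℕ in atTop, MR a b x ≤ κ) :
    ∃ C : ℝ, ∀ x : ℕ, LA a b κ x ≤ C := by
  have h1 : ∀ᶠ x : ℕ in atTop, LA a b κ x ≤ 0 := by
    filter_upwards [h, ev_pos] with n h1 h2
    rw [MR_eq a b κ n h2.1 h2.2.2.ne'] at h1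
    have h3 : 0 < Real.log n / DL n := div_pos h2.2.1 h2.2.2
    by_contra hc
    push Not at hc
    have := mul_pos hc h3
    linarith
  obtain ⟨N, hN⟩ := eventually_atTop.1 h1
  refine ⟨∑ k ∈ Finset.range N, |LA a b κ k|, fun n => ?_⟩
  by_cases hn : N ≤ n
  · exact (hN n hn).trans (Finset.sum_nonneg fun k _ => abs_nonneg _)
  · push Not at hn
    exact (le_abs_self _).trans (Finset.single_le_sum (f := fun k => |LA a b κ k|)
      (fun k _ => abs_nonneg _) (Finset.mem_range.2 hn))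

theorem equiv_all (hA : AvgBounded) (a b : ℤ) (F : ℂ → ℂ)
    (hF : IsL a b F) (hgr : ∃ C K : ℝ, ∀ s : ℂ, 1 ≤ s.re → ‖F s‖ ≤ C * (1 + ‖s‖) ^ K) :
    ∃ (m : ℕ) (l : ℂ), analyticOrderAt F 1 = m ∧ l ≠ 0 ∧
      Tendsto (fun s : ℂ => F s / (s - 1) ^ m) (𝓝[≠] 1) (𝓝 l) ∧
      (∀ κ : ℝ, List.TFAE [
        (∀ s : ℂ, 1 < s.re → F s ≠ 0) ∧ (m : ℝ) ≤ κ,
        ∃ C : ℝ, ∀ x : ℕ, LA a b κ x ≤ C,
        ∀ ε : ℝ, 0 < ε → ∀ᶠ x : ℕ in atTop, MR a b x ≤ κ + ε]) ∧
      (∀ κ : ℝ, List.TFAE [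
        (∀ s : ℂ, 1 < s.re → F s ≠ 0) ∧ (m : ℝ) = κ,
        ∃ C : ℝ, ∀ x : ℕ, |LA a b κ x| ≤ C,
        Tendsto (MR a b) atTop (𝓝 κ)]) := by
  obtain ⟨m, hm, hM⟩ := equiv_bdd hA a b F hF hgr
  obtain ⟨g, hga, hg1, hfac⟩ := (hF.1.analyticAt 1).analyticOrderAt_eq_natCast.1 hm
  have hfac' : ∀ᶠ z in 𝓝 (1 : ℂ), F z = (z - 1) ^ m * g z := by
    filter_upwards [hfac] with z hz
    rw [hz, smul_eq_mul]
  have one : ∀ κ : ℝ, List.TFAE [
        (∀ s : ℂ, 1 < s.re → F s ≠ 0) ∧ (m : ℝ) ≤ κ,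
        ∃ C : ℝ, ∀ x : ℕ, LA a b κ x ≤ C,
        ∀ ε : ℝ, 0 < ε → ∀ᶠ x : ℕ in atTop, MR a b x ≤ κ + ε] := by
    intro κ
    tfae_have 1 ↔ 2 := (hM κ).1.symm
    tfae_have 1 → 3 := by
      rintro ⟨h1, h2⟩ ε hε
      have h3 := MR_tendsto a b m ((hM m).2.2 ⟨h1, rfl⟩)
      exact h3.eventually (eventually_le_nhds (by linarith))
    tfae_have 3 → 1 := by
      intro h
      have h1 : ∀ ε : ℝ, 0 < ε → (∀ s : ℂ, 1 < s.re → F s ≠ 0) ∧ (m : ℝ) ≤ κ + ε := fun ε hε =>
        (hM (κ + ε)).1.1 (LA_of_MR a b (κ + ε) (h ε hε))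
      exact ⟨(h1 1 one_pos).1, le_of_forall_pos_le_add fun ε hε => (h1 ε hε).2⟩
    tfae_finish
  refine ⟨m, g 1, hm, hg1, ?_, one, fun κ => ?_⟩
  · have h1 : Tendsto g (𝓝[≠] 1) (𝓝 (g 1)) := hga.continuousAt.tendsto.mono_left nhdsWithin_le_nhds
    refine h1.congr' ?_
    filter_upwards [nhdsWithin_le_nhds hfac', self_mem_nhdsWithin] with z hz hz1
    rw [hz, mul_div_cancel_left₀]
    exact pow_ne_zero _ (sub_ne_zero.2 hz1)
  · tfae_have 1 ↔ 2 := (hM κ).2.symm
    tfae_have 2 → 3 := MR_tendsto a b κ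
    tfae_have 3 → 1 := by
      intro h
      have h1 := ((one κ).out 0 2).2 (fun ε hε =>
        h.eventually (eventually_le_nhds (by linarith)))
      have h2 := MR_tendsto a b m ((hM m).2.2 ⟨h1.1, rfl⟩)
      exact ⟨h1.1, tendsto_nhds_unique h2 h⟩
    tfae_finish

end Pool.Agent.H705R3.BSD
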